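import Mathlib

/-!
# Arrangements of hyperplanes over finite fields and Frobenius derivations: definitions
-/

set_option autoImplicit false

open MvPolynomial Module

namespace Pool.Agent.H77.TF

noncomputable section

variable {K : Type} [Field K] {l n : ℕ} {ν : Type}

/-- The linear form with coefficients `a`. -/
def lin (a : Fin l → K) : MvPolynomial (Fin l) K := ∑ i, C (a i) * X i

/-- The value of the vector field `v` at the linear form with coefficients `a`. -/
def evl (a : Fin l → K) (v : Fin l → MvPolynomial (Fin l) K) : MvPolynomial (Fin l) K :=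
  ∑ i, C (a i) * v i

/-- The module of logarithmic vector fields of the arrangement with linear forms `A i`. -/
def LD (A : ν → Fin l → K) : Submodule (MvPolynomial (Fin l) K) (Fin l → MvPolynomial (Fin l) K) where
  carrier := {v | ∀ i, lin (A i) ∣ evl (A i) v}
  zero_mem' := by
    intro i
    simp [evl]
  add_mem' := by
    intro v w hv hw i
    have : evl (A i) (v + w) = evl (A i) v + evl (A i) w := by
      simp [evl, mul_add, Finset.sum_add_distrib]
    rw [this]
    exact dvd_add (hv i) (hw i)
  smul_mem' := by
    intro f v hv i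
    have : evl (A i) (f • v) = f * evl (A i) v := by
      simp only [evl, Finset.mul_sum, Pi.smul_apply, smul_eq_mul]
      exact Finset.sum_congr rfl fun j _ => by ring
    rw [this]
    exact dvd_mul_of_dvd_right (hv i) f

/-- The linear forms `A i` are nonzero and pairwise not proportional (distinct hyperplanes). -/
def Simple (A : ν → Fin l → K) : Prop :=
  (∀ i, A i ≠ 0) ∧ ∀ i j, i ≠ j → ∀ c : K, A i ≠ c • A j

/-- The arrangement is free with exponents `e`: a basis of homogeneous vector fields of these degrees. -/
def HasExp (A : ν → Fin l → K) (e : Fin l → ℕ) : Prop :=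
  ∃ b : Basis (Fin l) (MvPolynomial (Fin l) K) (LD A),
    ∀ j i, ((b j : Fin l → MvPolynomial (Fin l) K) i).IsHomogeneous (e j)

/-- The Frobenius vector field `∑ X_i ^ (q ^ k) ∂_i`. -/
def frob (K : Type) [Field K] [Fintype K] (l k : ℕ) : Fin l → MvPolynomial (Fin l) K :=
  fun i => X i ^ (Fintype.card K ^ k)

/-- The hyperplane of the form `a`. -/
def hyp (a : Fin l → K) : Submodule K (Fin l → K) :=
  LinearMap.ker (∑ j, a j • (LinearMap.proj j : (Fin l → K) →ₗ[K] K))

/-- Every subspace of codimension two lies in a hyperplane of the arrangement. -/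
def Blocks (A : ν → Fin l → K) : Prop :=
  ∀ L : Submodule K (Fin l → K), finrank K L + 2 = l → ∃ i, L ≤ hyp (A i)

/-- Dual form: every two-dimensional space of linear forms contains a form of the arrangement. -/
def BlocksD (A : ν → Fin l → K) : Prop :=
  ∀ W : Submodule K (Fin l → K), finrank K W = 2 → ∃ i, A i ∈ W

/-- The intersection lattice: all intersections of hyperplanes of the arrangement. -/
def Lat (A : Fin n → Fin l → K) : Set (Submodule K (Fin l → K)) :=
  Set.range fun s : Finset (Fin n) => ⨅ i ∈ s, hyp (A i)

/-- `q + q ^ 2 + ⋯ + q ^ (l - 3) + 2 q ^ (l - 2)`, for `l ≥ 3`. -/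
def thr (q l : ℕ) : ℕ := (∑ k ∈ Finset.Ico 1 (l - 2), q ^ k) + 2 * q ^ (l - 2)

/-- The exponents `1, q, …, q ^ (l - 2)` and `n - (1 + q + ⋯ + q ^ (l - 2))`. -/
def expo (q l n : ℕ) (j : Fin l) : ℕ :=
  if (j : ℕ) + 1 = l then n - ∑ k ∈ Finset.range (l - 1), q ^ k else q ^ (j : ℕ)

end

end Pool.Agent.H77.TF
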