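import Mathlib
import Pool.Agent.H77.TF.Def

/-!
# Arrangements over finite fields: the number of uncovered subspaces of codimension two
-/

set_option autoImplicit false

open MvPolynomial Module

namespace Pool.Agent.H77.TF

noncomputable section

variable {K : Type} [Field K] {l : ℕ} {ν : Type}

/-- The number of the subspaces of codimension two which are contained in no hyperplane of the
arrangement. -/
def unc (A : ν → Fin l → K) : ℕ :=
  Nat.card {L : Submodule K (Fin l → K) // finrank K L + 2 = l ∧ ∀ i, ¬ L ≤ hyp (A i)}

/-- Dual form: the number of the two-dimensional spaces of linear forms which contain no form of the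
arrangement. -/
def uncD (A : ν → Fin l → K) : ℕ :=
  Nat.card {W : Submodule K (Fin l → K) // finrank K W = 2 ∧ ∀ i, A i ∉ W}

/-- The exponents `1, q, …, q ^ (l - 3)`, `q ^ (l - 2) - 1` and `n + 1 - (1 + q + ⋯ + q ^ (l - 2))`. -/
def expo2 (q l n : ℕ) (j : Fin l) : ℕ :=
  if (j : ℕ) + 1 = l then n + 1 - ∑ k ∈ Finset.range (l - 1), q ^ k
  else if (j : ℕ) + 2 = l then q ^ (l - 2) - 1 else q ^ (j : ℕ)

end

end Pool.Agent.H77.TF
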