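import Mathlib
import Pool.Agent.H77.TF.Def

/-!
# Arrangements of planes over finite fields and the uncovered points: definitions
-/

set_option autoImplicit false

open MvPolynomial Module

namespace Pool.Agent.H77.TF

noncomputable section

variable {K : Type} [Field K] {ν : Type}

/-- The points of `K ^ 3` which are on no plane of the arrangement. -/
def Pts (A : ν → Fin 3 → K) : Set (Fin 3 → K) := {x | ∀ i, ∑ j, A i j * x j ≠ 0}

/-- The homogeneous ideal of the uncovered points: the ideal generated by the homogeneous polynomials
which vanish at all of them. -/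
def van (A : ν → Fin 3 → K) : Ideal (MvPolynomial (Fin 3) K) :=
  Ideal.span {f | (∃ d, f.IsHomogeneous d) ∧ ∀ x ∈ Pts A, eval x f = 0}

/-- The determinant of the fields `θ_0, θ_1, v`. -/
def D3 [Fintype K] (v : Fin 3 → MvPolynomial (Fin 3) K) : MvPolynomial (Fin 3) K :=
  (Matrix.of ![frob K 3 0, frob K 3 1, v]).det

end

end Pool.Agent.H77.TF
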