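import Mathlib
import Pool.Agent.H77.TF.Def

/-!
# Terao's conjecture over finite fields, every dimension: statements of the modules

Notation: `K` a finite field with `q` elements, `S = K[X_1, …, X_l]`, `θ_k = frob K l k = ∑ X_i ^ (q ^ k) ∂_i`.
`evl a θ_k = (lin a) ^ (q ^ k)`, so all `θ_k` are logarithmic for every arrangement over `K`.
-/

set_option autoImplicit false

open MvPolynomial Module

namespace Pool.Agent.H77.TF

/-- PRI. Nonzero linear forms are prime and `lin a ∣ lin b` only for proportional forms.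
Proof: pivot `j` with `a j ≠ 0`; the substitution `X_j ↦ - a_j⁻¹ ∑_{i ≠ j} a_i X_i` has kernel `(lin a)` and maps to a
domain. -/
def S_PRI : Prop :=
  ∀ (K : Type) [Field K] (l : ℕ) (a : Fin l → K), a ≠ 0 →
    Prime (lin a) ∧ ∀ b : Fin l → K, lin a ∣ lin b → ∃ c : K, b = c • a

/-- SUB. Substitution of the pivot variable: the ring of functions of the hyperplane `lin h = 0`.
`ρ X_j = - h_j⁻¹ ∑ h_(j.succAbove i) X_i`. `ρ f = 0 → lin h ∣ f` because
`lin h ∣ f - rename j.succAbove (ρ f)` for all `f` (induction on `f`). -/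
def S_SUB : Prop :=
  ∀ (K : Type) [Field K] (m : ℕ) (h : Fin (m + 1) → K) (j : Fin (m + 1)), h j ≠ 0 →
    ∃ ρ : MvPolynomial (Fin (m + 1)) K →ₐ[K] MvPolynomial (Fin m) K,
      (∀ i, ρ (X (j.succAbove i)) = X i) ∧ ρ (lin h) = 0 ∧
      (∀ f, ρ (rename j.succAbove f) = f) ∧ ∀ f, ρ f = 0 → lin h ∣ f

/-- MOO. If the vectors `(x_i ^ (q ^ k))_i`, `k < m`, are linearly dependent over the field `F ⊇ K`, then the `x_i` span a
space of dimension less than `m` over `K`. Proof: `P = ∑ c_k T ^ (q ^ k)` is nonzero of degree at most `q ^ (m - 1)` and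
vanishes on the `K`-span of the `x_i` (the polynomial is additive and `K`-homogeneous), which has `q ^ dim` elements. -/
def S_MOO : Prop :=
  ∀ (K : Type) [Field K] [Fintype K] (F : Type) [Field F] [Algebra K F] (l m : ℕ) (x : Fin l → F)
    (c : Fin m → F), c ≠ 0 → (∀ i, ∑ k, c k * x i ^ (Fintype.card K ^ (k : ℕ)) = 0) →
    finrank K (Submodule.span K (Set.range x)) < m

/-- MDT. The Moore determinant `det (X_i ^ (q ^ k))` is a nonzero constant times the product of representatives of all
points of the projective space. Proof: nonzero by MOO over the fraction field; each `lin a` divides it (column/row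
combination gives a nonzero vector in the kernel modulo the prime `lin a`); different points give non-associated primes;
both sides have degree `1 + q + ⋯ + q ^ (l - 1)` (`Projectivization.card_of_finrank`). -/
def S_MDT : Prop :=
  ∀ (K : Type) [Field K] [Fintype K] (l : ℕ),
    ∃ c : K, c ≠ 0 ∧ (Matrix.of fun k i : Fin l => frob K l k i).det =
      C c * ∏ᶠ p : Projectivization K (Fin l → K), lin p.rep

/-- DET. If all `w_k` are tangent to the hyperplane `lin a = 0` then `lin a` divides the determinant. Proof: in the domain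
`S / (lin a)` the nonzero covector `a` kills all rows. -/
def S_DET : Prop :=
  ∀ (K : Type) [Field K] (l : ℕ) (a : Fin l → K), a ≠ 0 →
    ∀ w : Fin l → Fin l → MvPolynomial (Fin l) K, (∀ k, lin a ∣ evl a (w k)) → lin a ∣ (Matrix.of w).det

/-- SAI. Saito's criterion (the direction used): `l` logarithmic vector fields whose determinant is a nonzero constant
times the product of the forms are a basis. Proof: linear independence from `det ≠ 0`. For `v` in `LD A` the determinants
with row `k` replaced by `v` are divisible by all `lin (A i)` (DET), so by the product (pairwise non-associated primes,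
PRI), so Cramer's rule gives coefficients in `S`. -/
def S_SAI : Prop :=
  ∀ (K : Type) [Field K] (l : ℕ) (ν : Type) [Fintype ν] (A : ν → Fin l → K), Simple A →
    ∀ (w : Fin l → Fin l → MvPolynomial (Fin l) K) (c : K), c ≠ 0 → (∀ k, w k ∈ LD A) →
      (Matrix.of w).det = C c * ∏ i, lin (A i) →
      ∃ b : Basis (Fin l) (MvPolynomial (Fin l) K) (LD A),
        ∀ k, (b k : Fin l → MvPolynomial (Fin l) K) = w k

/-- FUL. A vector field tangent to all hyperplanes over `K` is a combination of `θ_0, …, θ_(l-1)`.
Proof: SAI for the arrangement `A p = p.rep` (`p` in the projective space) and MDT. -/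
def S_FUL : Prop :=
  ∀ (K : Type) [Field K] [Fintype K] (l : ℕ) (v : Fin l → MvPolynomial (Fin l) K),
    (∀ a : Fin l → K, a ≠ 0 → lin a ∣ evl a v) →
    ∃ r : Fin l → MvPolynomial (Fin l) K, v = ∑ k, r k • frob K l k

/-- STP. Deletion of one hyperplane `h`. `A` contains no form proportional to `h`, and together with `h` it is the
arrangement `A'` in which `φ` is the last element of the basis; `A` still meets every two-dimensional space of forms
containing `h`. Then the hyperplane can be deleted: `lin h • φ' = φ - ∑ f_k θ_k`.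
Proof: `ρ` from SUB. The restriction `v = ρ ∘ φ ∘ succAbove` is tangent to all hyperplanes `b ≠ 0` of `K ^ m`: extend `b`
by `0` at `j` to `a`; the space spanned by `a`, `h` contains some `A i = λ a + μ h`, `λ ≠ 0`, and
`ρ (evl (A i) φ) = λ evl b v`, `ρ (lin (A i)) = λ lin b`. By FUL (dimension `m`) `v = ∑ r_k θ_k`; put
`f_k = rename succAbove r_k`; all components of `φ - ∑ f_k θ_k` are killed by `ρ` (the one with index `j` because
`ρ (evl h ·) = 0`). -/
def S_STP : Prop :=
  ∀ (K : Type) [Field K] [Fintype K] (m : ℕ) (ν : Type) (A : ν → Fin (m + 1) → K) (h : Fin (m + 1) → K),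
    h ≠ 0 → (∀ i, A i ≠ 0) → (∀ i (c : K), A i ≠ c • h) →
    (∀ W : Submodule K (Fin (m + 1) → K), finrank K W = 2 → h ∈ W → ∃ i, A i ∈ W) →
    ∀ φ ∈ LD A, lin h ∣ evl h φ →
      ∃ φ' ∈ LD A, ∃ f : Fin m → MvPolynomial (Fin (m + 1)) K,
        lin h • φ' = φ - ∑ k : Fin m, f k • frob K (m + 1) k

/-- SUF. Blocking arrangements are free with the exponents `expo`, and the Frobenius fields are the first elements of the
basis. Proof: induction on the number of the points of the projective space outside the arrangement, starting with the full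
arrangement (MDT), with STP: there is `φ` in `LD A` with `det (θ_0, …, θ_(l-2), φ) = c ∏ lin (A i)`. Then replace `φ` by its
homogeneous component of degree `n - (1 + q + ⋯ + q ^ (l - 2))` (`LD A` is graded) and use SAI. -/
def S_SUF : Prop :=
  ∀ (K : Type) [Field K] [Fintype K] (l : ℕ) (ν : Type) [Fintype ν] (A : ν → Fin l → K), 2 ≤ l → Simple A →
    BlocksD A → HasExp A (expo (Fintype.card K) l (Fintype.card ν)) ∧
      ∑ k ∈ Finset.range (l - 1), Fintype.card K ^ k ≤ Fintype.card ν

/-- GRD. A free arrangement has a homogeneous basis. Proof: `LD A` is graded; it has rank `l` (it contains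
`Q ∂_i`); choose homogeneous elements whose classes form a basis of `LD A / (X_1, …, X_l) LD A` and use the graded Nakayama
lemma. -/
def S_GRD : Prop :=
  ∀ (K : Type) [Field K] (l : ℕ) (ν : Type) [Fintype ν] (A : ν → Fin l → K), Simple A →
    Module.Free (MvPolynomial (Fin l) K) (LD A) → ∃ e, HasExp A e

/-- CNT. With at least `thr q l` hyperplanes one exponent is at least `q ^ (l - 2)`. Proof: let `θ_k = ∑ c_kj b_j`,
`k, j < l`. Then `det c ≠ 0` by MOO, so there is a permutation `σ` with `c_(k, σ k) ≠ 0` for all `k`, hence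
`e (σ k) ≤ q ^ k`. `n ≤ ∑ e_j` since `∏ lin (A i)` divides `det b ≠ 0` (DET, PRI). If all `e_j ≤ q ^ (l - 2) - 1` then
`n ≤ ∑_{k ≤ l - 3} q ^ k + 2 (q ^ (l - 2) - 1) < thr`. -/
def S_CNT : Prop :=
  ∀ (K : Type) [Field K] [Fintype K] (l : ℕ) (ν : Type) [Fintype ν] (A : ν → Fin l → K) (e : Fin l → ℕ), 3 ≤ l →
    Simple A → HasExp A e → thr (Fintype.card K) l ≤ Fintype.card ν → ∃ j, Fintype.card K ^ (l - 2) ≤ e j

/-- PNT. A point over a larger field whose relations over `K` are the given space. Proof: a linear map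
`π : K ^ l → K ^ r` with kernel `W`; `F` the fraction field of `K[Y_1, …, Y_r]`, `x_i = ∑_j π(e_i)_j Y_j`. -/
def S_PNT : Prop :=
  ∀ (K : Type) [Field K] (l : ℕ) (W : Submodule K (Fin l → K)),
    ∃ (F : Type) (_ : Field F) (_ : Algebra K F) (x : Fin l → F), ∀ a : Fin l → K,
      ∑ i, a i • x i = 0 ↔ a ∈ W

/-- CFS. The coefficients of the Frobenius fields in a homogeneous basis: `θ_k = ∑ c_kj b_j`, `c_kj = 0` if `q ^ k < e_j`,
and `c_kj` is a constant if `q ^ k = e_j`. Proof: compare homogeneous components of degree `q ^ k`, uniqueness. -/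
def S_CFS : Prop :=
  ∀ (K : Type) [Field K] [Fintype K] (l : ℕ) (ν : Type) (A : ν → Fin l → K) (e : Fin l → ℕ)
    (b : Basis (Fin l) (MvPolynomial (Fin l) K) (LD A)),
    (∀ j i, ((b j : Fin l → MvPolynomial (Fin l) K) i).IsHomogeneous (e j)) →
    ∃ c : ℕ → Fin l → MvPolynomial (Fin l) K,
      (∀ k, frob K l k = ∑ j, c k j • (b j : Fin l → MvPolynomial (Fin l) K)) ∧
      (∀ k j, Fintype.card K ^ k < e j → c k j = 0) ∧
      ∀ k j, Fintype.card K ^ k = e j → ∃ κ : K, c k j = C κ

/-- UNI. If the first `l - 1` Frobenius fields are combinations of `l - 1` vector fields, then the determinant of the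
coefficients is a unit. Proof: otherwise let `π` be a prime factor (the determinant is not `0` by MOO over the fraction field).
Modulo `π` the matrix is singular, so by MOO over the fraction field of `S / π` the classes of the variables span a space of
dimension at most `l - 2`, and `π` divides `lin a`, `lin b` for independent `a`, `b`; contradiction with PRI. -/
def S_UNI : Prop :=
  ∀ (K : Type) [Field K] [Fintype K] (m : ℕ) (u : Fin m → Fin (m + 1) → MvPolynomial (Fin (m + 1)) K)
    (c : Fin m → Fin m → MvPolynomial (Fin (m + 1)) K),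
    (∀ k : Fin m, frob K (m + 1) k = ∑ j, c k j • u j) → IsUnit (Matrix.of c).det

/-- NEC. A free arrangement with an exponent `≥ q ^ (l - 2)` is blocking. Proof: suppose `W`, `dim W = 2`, contains no
`A i`; take `F`, `x` from PNT. Let `c` be as in CFS and `e_(j₀) ≥ q ^ (l - 2)`. (1) `b_j(x)` are linearly independent:
`Q ^ l` is a multiple of `det b` and `Q(x) ≠ 0`. (2) `θ_k(x)` lie in `T = {u : ∑ a_i u_i = 0 for a ∈ W}` of dimension
`l - 2`, and `θ_0(x), …, θ_(l-3)(x)` are a basis of `T` by MOO. (3) So `θ_(l-2)(x) = ∑_{k ≤ l-3} d_k θ_k(x)` and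
`c_(l-2, j)(x) = ∑_k d_k c_kj(x)` for all `j`, in particular `c_(l-2, j₀)(x) = 0`, and `c_(l-2, j₀)` is a constant (or `0`),
so it is `0`. (4) So `θ_0, …, θ_(l-2)` are combinations of the `b_j`, `j ≠ j₀`, and by UNI the determinant of the
coefficients is a unit, but its value at `x` is `0` by (1), (2). -/
def S_NEC : Prop :=
  ∀ (K : Type) [Field K] [Fintype K] (l : ℕ) (ν : Type) [Fintype ν] (A : ν → Fin l → K) (e : Fin l → ℕ)
    (j₀ : Fin l), 3 ≤ l → Simple A → HasExp A e → Fintype.card K ^ (l - 2) ≤ e j₀ → BlocksD A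

/-- DUA. The two forms of the blocking condition (orthogonal complements for the dot product). -/
def S_DUA : Prop :=
  ∀ (K : Type) [Field K] (l : ℕ) (ν : Type) (A : ν → Fin l → K), 2 ≤ l → (Blocks A ↔ BlocksD A)

/-- BIJ. A lattice isomorphism gives a bijection of the hyperplanes that preserves `A k ∈ span (A i, A j)`. Proof: the
hyperplanes are the coatoms of `Lat A`; `hyp (A i) ⊓ hyp (A j)` is their infimum in `Lat A`;
`hyp a ⊓ hyp b ≤ hyp c ↔ c ∈ span {a, b}`. -/
def S_BIJ : Prop :=
  ∀ (K : Type) [Field K] (l n m : ℕ) (A : Fin n → Fin l → K) (B : Fin m → Fin l → K), Simple A → Simple B →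
    Nonempty (Lat A ≃o Lat B) → ∃ β : Fin n ≃ Fin m, ∀ i j k,
      A k ∈ Submodule.span K {A i, A j} ↔ B (β k) ∈ Submodule.span K {B (β i), B (β j)}

/-- LAT. The blocking condition depends only on the relation `A k ∈ span (A i, A j)`. Proof: let `M i j` be the number
of `k` with `A k ∈ span (A i, A j)`, and `g` the number of two-dimensional spaces containing a given nonzero vector. The
number of two-dimensional spaces containing some `A i` is `n g - ∑_{i ≠ j} 1 / M i j` (give each space `W` containing
`m_W ≥ 1` forms the weight `1 / m_W` at each of them: `∑_{W ∋ A i} 1 / m_W = g - ∑_{W ∋ A i} (m_W - 1) / m_W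
= g - ∑_{j ≠ i} 1 / M i j`). -/
def S_LAT : Prop :=
  ∀ (K : Type) [Field K] [Fintype K] (l n m : ℕ) (A : Fin n → Fin l → K) (B : Fin m → Fin l → K),
    Simple A → Simple B → ∀ β : Fin n ≃ Fin m, (∀ i j k,
      A k ∈ Submodule.span K {A i, A j} ↔ B (β k) ∈ Submodule.span K {B (β i), B (β j)}) →
    BlocksD A → BlocksD B

/-- SHP. Sharpness: the forms `u ≠ 0` (up to scalars), `u + Y`, `u + Z` (`u ≠ 0`), `u` in the first `l - 2` variables, `Y`, `Z`
the last two variables. Basis `θ_0, …, θ_(l-3)`, `∏_{u ≠ 0} (u + Y) ∂_Y`, `∏_{u ≠ 0} (u + Z) ∂_Z` (SAI, MDT in dimension `l - 2`).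
The space spanned by `Y`, `Z` contains none of the forms. -/
def S_SHP : Prop :=
  ∀ (K : Type) [Field K] [Fintype K] (l : ℕ), 3 ≤ l →
    ∃ A : Fin (thr (Fintype.card K) l - 1) → Fin l → K, Simple A ∧
      Module.Free (MvPolynomial (Fin l) K) (LD A) ∧ ¬ BlocksD A

end Pool.Agent.H77.TF
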