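import Mathlib
import Pool.Agent.H77.TF.Def
import Pool.Agent.H77.TF.Def2
import Pool.Agent.H77.TF.Stm

/-!
# Project TG: freeness over finite fields with an exponent at least `q ^ (l - 2) - 1`. Statements

A missed plane is a two-dimensional space `W` of forms with `A i ∉ W` for all `i`; their number is
`uncD A`. `q = Fintype.card K`. The modules of project TF may be used (as hypotheses `S_PRI`, … or by
importing them).
-/

set_option autoImplicit false

open MvPolynomial Module

namespace Pool.Agent.H77.TF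

/-- PL3 (plane case). Proof. A missed plane `W` is the kernel of a functional `p` on `K ^ 3`, unique up to
scalars: `W = {a : a ⬝ p = 0}`, `p ∈ K ^ 3`, `p ≠ 0`, and `A i ⬝ p ≠ 0` for all `i`. Let `n = card ν`,
`Q = ∏ i, lin (A i)` (a polynomial of degree `n` in `p`), `n ≤ 2 q - 2`. For every homogeneous `h` of
degree `2 q - 2 - n` we have `∑_{p ∈ K ^ 3} h(p) Q(p) = 0` (`MvPolynomial.sum_eval_eq_zero`, total
degree `2 (q - 1) < 3 (q - 1)`), and `h Q` takes the same value at `p` and `c p`, `c ≠ 0`, so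
(`q - 1 = -1` in `K`) the sum of `h(p) Q(p)` over representatives `p` of the missed planes is `0`, and
`Q(p) ≠ 0` there. Let `p_1, …, p_v` be these representatives, `v ≥ 1`.
(1) If `v - 1 ≤ 2 q - 2 - n` take `h = ∏_{j ≥ 2} lin (w_j) * lin (w) ^ (2 q - 1 - n - v)` with
`w_j ⬝ p_j = 0`, `w_j ⬝ p_1 ≠ 0`, `w ⬝ p_1 ≠ 0`: contradiction. (`n ≥ 2 q` is trivial, `n = 2 q - 1` too.)
(2) If `v + n = 2 q` and no `r ≠ 0` is orthogonal to all `p_j`, three of the `p_j`, say `p_1, p_2, p_3`, are
linearly independent, and `h = lin (w) * ∏_{j ≥ 4} lin (w_j)` with `w ⬝ p_2 = w ⬝ p_3 = 0`,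
`w ⬝ p_1 ≠ 0` gives a contradiction. -/
def S_PL3 : Prop :=
  ∀ (K : Type) [Field K] [Fintype K] (ν : Type) [Fintype ν] (A : ν → Fin 3 → K),
    (uncD A = 0 ∨ 2 * Fintype.card K ≤ uncD A + Fintype.card ν) ∧
    (uncD A + Fintype.card ν = 2 * Fintype.card K →
      ∃ r : Fin 3 → K, r ≠ 0 ∧
        ∀ W : Submodule K (Fin 3 → K), finrank K W = 2 → (∀ i, A i ∉ W) → r ∈ W)

/-- PLU. The same inside a three-dimensional space `U` of forms. Proof: transport PL3 by a linear
isomorphism `U ≃ K ^ 3` (index type `{i // A i ∈ U}`); the planes `W ≤ U` correspond to the planes of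
`K ^ 3`. -/
def S_PLU : Prop :=
  ∀ (K : Type) [Field K] [Fintype K] (l : ℕ) (ν : Type) [Fintype ν] (A : ν → Fin l → K)
    (U : Submodule K (Fin l → K)), finrank K U = 3 →
    (Nat.card {W : Submodule K (Fin l → K) // finrank K W = 2 ∧ W ≤ U ∧ ∀ i, A i ∉ W} = 0 ∨
      2 * Fintype.card K ≤
        Nat.card {W : Submodule K (Fin l → K) // finrank K W = 2 ∧ W ≤ U ∧ ∀ i, A i ∉ W} +
          Nat.card {i // A i ∈ U}) ∧
    (Nat.card {W : Submodule K (Fin l → K) // finrank K W = 2 ∧ W ≤ U ∧ ∀ i, A i ∉ W} +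
          Nat.card {i // A i ∈ U} = 2 * Fintype.card K →
      ∃ r : Fin l → K, r ≠ 0 ∧
        ∀ W : Submodule K (Fin l → K), finrank K W = 2 → W ≤ U → (∀ i, A i ∉ W) → r ∈ W)

/-- GN1. Counting around a missed plane `W₀`. Proof (from PLU): let `U` run through the
`1 + q + ⋯ + q ^ (l - 3)` three-dimensional spaces containing `W₀`, `v_U` the number of missed planes in
`U` (`v_U ≥ 1`), `n_U` the number of `i` with `A i ∈ U`. Every `A i` is in exactly one `U`
(`U = W₀ + ⟨A i⟩`), so `∑ n_U = card ν`; a missed plane `W ≠ W₀` is in at most one `U` (`U = W + W₀`), and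
in one iff `W ⊓ W₀ ≠ ⊥`. So `uncD A ≥ 1 + ∑ (v_U - 1) ≥ 1 + ∑ (2 q - 1 - n_U)
= 1 + (2 q - 1) (1 + ⋯ + q ^ (l - 3)) - card ν = thr - card ν`, and in the case of equality all the
inequalities are equalities. -/
def S_GN1 : Prop :=
  ∀ (K : Type) [Field K] [Fintype K] (l : ℕ) (ν : Type) [Fintype ν] (A : ν → Fin l → K)
    (W₀ : Submodule K (Fin l → K)), 3 ≤ l → finrank K W₀ = 2 → (∀ i, A i ∉ W₀) →
    thr (Fintype.card K) l ≤ uncD A + Fintype.card ν ∧
    (uncD A + Fintype.card ν = thr (Fintype.card K) l →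
      (∀ W : Submodule K (Fin l → K), finrank K W = 2 → (∀ i, A i ∉ W) → W ⊓ W₀ ≠ ⊥) ∧
      ∀ U : Submodule K (Fin l → K), finrank K U = 3 → W₀ ≤ U →
        Nat.card {W : Submodule K (Fin l → K) // finrank K W = 2 ∧ W ≤ U ∧ ∀ i, A i ∉ W} +
          Nat.card {i // A i ∈ U} = 2 * Fintype.card K)

/-- GEN. Proof (from GN1 and PLU). First part: GN1. Second part: if there is no missed plane take any `r`;
if there is only one take any `r ≠ 0` in it. Otherwise let `W₁ ≠ W₂` be missed planes, `U = W₁ + W₂` of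
dimension 3 (GN1: they meet), `r` from PLU for `U`, so `W₁ ⊓ W₂ = ⟨r⟩`. Let `W` be missed. If `W ≤ U` then
`r ∈ W`. If not, `W ⊓ U` has dimension one and contains the nonzero `W ⊓ W₁` and `W ⊓ W₂`, which are
therefore equal and contained in `W₁ ⊓ W₂ = ⟨r⟩`; so `r ∈ W`. -/
def S_GEN : Prop :=
  ∀ (K : Type) [Field K] [Fintype K] (l : ℕ) (ν : Type) [Fintype ν] (A : ν → Fin l → K), 3 ≤ l →
    (uncD A = 0 ∨ thr (Fintype.card K) l ≤ uncD A + Fintype.card ν) ∧
    (uncD A + Fintype.card ν = thr (Fintype.card K) l →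
      ∃ r : Fin l → K, r ≠ 0 ∧
        ∀ W : Submodule K (Fin l → K), finrank K W = 2 → (∀ i, A i ∉ W) → r ∈ W)

/-- PHI. What the proof of SUF (helper75, `main_ind`, `D_comp`) gives: the last element of the basis. -/
def S_PHI : Prop :=
  ∀ (K : Type) [Field K] [Fintype K] (m : ℕ) (ν : Type) [Fintype ν] (A : ν → Fin (m + 1) → K), 1 ≤ m →
    Simple A → BlocksD A → ∑ k ∈ Finset.range m, Fintype.card K ^ k ≤ Fintype.card ν ∧
      ∃ φ ∈ LD A, (∀ i, (φ i).IsHomogeneous (Fintype.card ν - ∑ k ∈ Finset.range m, Fintype.card K ^ k)) ∧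
        ∃ c : K, c ≠ 0 ∧
          (Matrix.of fun k : Fin (m + 1) => if (k : ℕ) = m then φ else frob K (m + 1) k).det =
            C c * ∏ i, lin (A i)

/-- RSN. Restriction to the hyperplane `lin h = 0` (`ρ` is the substitution of SUB for the pivot `j`); the
restricted matrix `θ_0, …, θ_(m-2), ρ φ` is nonsingular if some plane containing `h` is missed.
Proof. (a) `h_j det(θ_0, …, θ_(m-1), φ)` is the determinant with the column `j` replaced by the values at `h`,
which are `lin h, (lin h) ^ q, …, 0`. Divide by `lin h` and apply `ρ` (`ρ (lin h) = 0`): for some sign,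
`± det(θ_1, …, θ_(m-1), ρφ) = h_j c ∏ ρ (lin (A i))`, an `m × m` determinant in `m` variables.
(b) Let `b'` be `b` extended by `0` at `j` and suppose that the plane spanned by `b'` and `h` is missed. Take
`F`, `x ∈ F ^ m` from PNT for `⟨b⟩` (or `F` the fraction field of the polynomial ring modulo `lin b`).
`ρ (lin (A i)) = lin b_i`, `b_i` not a multiple of `b`, so it does not vanish at `x`. So by (a) `(ρφ)(x)` is
not in the span of `θ_1(x), …, θ_(m-1)(x)`. These are in `T = {u : b ⬝ u = 0}` (dimension `m - 1`) and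
linearly independent by MOO (as `θ_0(x), …, θ_(m-2)(x)` are, apply MOO to the `x_i ^ q`, or the injectivity
of the Frobenius map), so they span `T`. So `(ρφ)(x) ∉ T`, and as `θ_0(x), …, θ_(m-2)(x)` are a basis of `T`
by MOO, the determinant in question is not zero at `x`. -/
def S_RSN : Prop :=
  ∀ (K : Type) [Field K] [Fintype K] (m : ℕ) (ν : Type) [Fintype ν] (A : ν → Fin (m + 1) → K)
    (h : Fin (m + 1) → K) (j : Fin (m + 1))
    (ρ : MvPolynomial (Fin (m + 1)) K →ₐ[K] MvPolynomial (Fin m) K)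
    (φ : Fin (m + 1) → MvPolynomial (Fin (m + 1)) K) (c : K) (b : Fin m → K),
    2 ≤ m → h j ≠ 0 → (∀ i, ρ (X (j.succAbove i)) = X i) → ρ (lin h) = 0 → c ≠ 0 →
    evl h φ = 0 →
    (Matrix.of fun k : Fin (m + 1) => if (k : ℕ) = m then φ else frob K (m + 1) k).det =
      C c * (lin h * ∏ i, lin (A i)) →
    b ≠ 0 → (∀ i, A i ∉ Submodule.span K {j.insertNth (0 : K) b, h}) →
    (Matrix.of fun k : Fin m => if (k : ℕ) + 1 = m then (fun i => ρ (φ (j.succAbove i)))
      else frob K m k).det ≠ 0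

/-- DEL. `l = m + 1`, `n = card ν`, `v = uncD A ≥ 1`, `v + n = thr`. Proof (from SUB, PHI, RSN, SAI, DET, PRI).
(a) `r` is in every missed plane, so `r ≠ c • A i`, `A` together with `r` is simple and blocking, and PHI
(index type `Option ν`) gives `φ`, homogeneous of degree `b = n + 1 - (1 + q + ⋯ + q ^ (l - 2))`. Write
`evl r φ = lin r * g` with `g` homogeneous and replace `φ` by `φ - g θ_0`: so `evl r φ = 0` (the determinant
does not change).
(b) `ρ` from SUB for `h = r`, a pivot `j`. The planes containing `r` are the spans of `p'` (`p.rep` extended by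
`0` at `j`) and `r`, for the points `p` of the projective space of `K ^ m`; let `B` be the arrangement of the
`p.rep` for which this plane is not missed. It has `1 + q + ⋯ + q ^ (m - 1) - v` members. `φ_H = (ρ (φ (j.succAbove i)))_i`
is in `LD B` (see STP).
(c) `Δ = det(θ_0, …, θ_(m-2), φ_H)` is divisible by `∏ lin (B p)` (DET, PRI), is not zero (RSN, there is a
missed plane) and homogeneous of degree `1 + ⋯ + q ^ (m - 2) + b`, which is the number of the members of `B`
because of `v + n = thr`. So it is a nonzero constant times the product, and by SAI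
`θ_(m-1) = ∑_{k ≤ m-2} s_k θ_k + s φ_H` (in dimension `m`).
(d) Lift with `rename succAbove` (see STP): `θ_(m-1) - ∑ f_k θ_k - f φ = lin r • ψ` in dimension `m + 1`; take
the homogeneous component, so that `ψ` is homogeneous of degree `q ^ (m - 1) - 1`. `ψ ∈ LD A` because
`lin (A i)` is prime and does not divide `lin r`. `det(θ_0, …, θ_(m-2), ψ, φ) * lin r =
det(θ_0, …, θ_(m-2), θ_(m-1), φ) = c lin r ∏ lin (A i)`; apply SAI. -/
def S_DEL : Prop :=
  ∀ (K : Type) [Field K] [Fintype K] (l : ℕ) (ν : Type) [Fintype ν] (A : ν → Fin l → K) (r : Fin l → K),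
    3 ≤ l → Simple A → r ≠ 0 → uncD A ≠ 0 → uncD A + Fintype.card ν = thr (Fintype.card K) l →
    (∀ W : Submodule K (Fin l → K), finrank K W = 2 → (∀ i, A i ∉ W) → r ∈ W) →
    HasExp A (expo2 (Fintype.card K) l (Fintype.card ν))

/-- NC2. `l = m + 1`. Proof. Let `b` be the basis, `θ_k = ∑ c_kj b_j` (CFS), `x` a point as in NEC for a missed
plane `W`. Since `q ^ k < e j₀` for `k ≤ l - 3`, `c_(k, j₀) = 0` for these `k`; `λ = c_(l-2, j₀)` is homogeneous
of degree `1` (take homogeneous components). As in NEC (3) `λ(x) = 0` for every missed `W`. If `λ = 0` then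
`A` is blocking as in NEC (4) (UNI). So let `λ = lin r`, `r ≠ 0`; then `r ∈ W` for all missed `W`. Let
`M = (c_kj)`, `k ≤ l - 2`, `j ≠ j₀`, `D = det M`, homogeneous of degree `∑_{k ≤ l-2} q ^ k - ∑_{j ≠ j₀} e_j
≤ ∑_{k ≤ l-2} q ^ k - n + q ^ (l - 2) - 1 = thr - n` (`n ≤ ∑ e_j`, see CNT).
(a) `lin r ∤ D`: modulo the prime `lin r` the column `j₀` of `(c_kj)`, `k ≤ l - 2`, is zero, so if `D` is
divisible by `lin r` then `θ_0, …, θ_(l-2)` are dependent modulo `lin r`, and by MOO the classes of the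
variables span a space of dimension `< l - 1`, contradiction.
(b) Let `ρ` be the substitution (SUB) for `r` and a pivot, and let the plane spanned by `r` and `p'`
(`p.rep` extended by zero) be missed. Then `lin p.rep ∣ ρ D`: let `F` be the fraction field of
`K[X_1, …, X_m] / (lin p.rep)` and `x_i` the classes of `ρ X_i`. A form vanishes at `x` iff it is in the plane.
The `θ_k(x)`, `k ≤ l - 2`, are in a space of dimension `l - 2`, hence dependent, the `b_j(x)` are independent,
`c_(k, j₀)(x) = 0` for all `k ≤ l - 2`, so `D(x) = 0`.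
(c) So the product of the `lin p.rep` over the missed planes divides `ρ D ≠ 0`, and
`uncD A ≤ deg D ≤ thr - n`. -/
def S_NC2 : Prop :=
  ∀ (K : Type) [Field K] [Fintype K] (l : ℕ) (ν : Type) [Fintype ν] (A : ν → Fin l → K) (e : Fin l → ℕ)
    (j₀ : Fin l), 3 ≤ l → 2 < Fintype.card K ^ (l - 2) → Simple A → HasExp A e →
    e j₀ + 1 = Fintype.card K ^ (l - 2) →
    uncD A = 0 ∨ uncD A + Fintype.card ν ≤ thr (Fintype.card K) l

/-- CN2. As CNT: if all `e_j ≤ q ^ (l - 2) - 2` then `n ≤ ∑_{k ≤ l - 3} q ^ k + 2 (q ^ (l - 2) - 2) = thr - 3`. -/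
def S_CN2 : Prop :=
  ∀ (K : Type) [Field K] [Fintype K] (l : ℕ) (ν : Type) [Fintype ν] (A : ν → Fin l → K) (e : Fin l → ℕ), 3 ≤ l →
    Simple A → HasExp A e → thr (Fintype.card K) l ≤ Fintype.card ν + 2 →
    ∃ j, Fintype.card K ^ (l - 2) ≤ e j + 1

/-- LT2. As LAT (`hcount`). -/
def S_LT2 : Prop :=
  ∀ (K : Type) [Field K] [Fintype K] (l n m : ℕ) (A : Fin n → Fin l → K) (B : Fin m → Fin l → K),
    Simple A → Simple B → ∀ β : Fin n ≃ Fin m, (∀ i j k,
      A k ∈ Submodule.span K {A i, A j} ↔ B (β k) ∈ Submodule.span K {B (β i), B (β j)}) →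
    uncD A = uncD B

/-- DU2. As DUA (bijection by orthogonal complements). -/
def S_DU2 : Prop :=
  ∀ (K : Type) [Field K] (l : ℕ) (ν : Type) (A : ν → Fin l → K), 2 ≤ l → unc A = uncD A

end Pool.Agent.H77.TF
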