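import Mathlib
import Pool.Agent.H77.TF.Def
import Pool.Agent.H77.TF.Def3
import Pool.Agent.H77.TF.Stm

/-!
# Project TC: freeness of arrangements in `F_q ^ 3` and complete intersections. Statements

`q = Fintype.card K`, `S = K[X_0, X_1, X_2]`, `Q = ∏ i, lin (A i)`, `θ_k = frob K 3 k`,
`D3 v = det(θ_0, θ_1, v)`.
-/

set_option autoImplicit false

open MvPolynomial Module

namespace Pool.Agent.H77.TF

/-- DD3. Proof: `lin a ∣ D3 v ↔ lin a ∣ evl a v` for `a ≠ 0`: let `a j ≠ 0`; `a_j D3 v` is the determinant with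
the column `j` replaced by `(lin a, (lin a) ^ q, evl a v)`, so it is congruent to
`± evl a v * (X_s X_t ^ q - X_t X_s ^ q)` modulo `lin a`, `{s, t}` the complement of `j`, and the prime
`lin a` does not divide the last factor (substitute, SUB). Then PRI for the product. -/
def S_DD3 : Prop :=
  ∀ (K : Type) [Field K] [Fintype K] (ν : Type) [Fintype ν] (A : ν → Fin 3 → K), Simple A →
    ∀ v : Fin 3 → MvPolynomial (Fin 3) K, v ∈ LD A ↔ ∏ i, lin (A i) ∣ D3 v

/-- MR3. A homogeneous polynomial which vanishes at all points of `K ^ 3` is `D3 v` for a homogeneous `v`.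
Proof. `g(0, y, z)` vanishes on `K ^ 2`, so it is `h(y, z) (y z ^ q - y ^ q z)` (it is divisible by all linear
forms in `y, z`, which are pairwise non-associated primes with this product up to a constant). Subtract
`D3` of a multiple of `∂_0`: so `g = x g₁`, `g₁` homogeneous of degree `d - 1` vanishing where `x ≠ 0`. So
`g₁(1, y, z)` vanishes on `K ^ 2`, hence `g₁(1, y, z) = a (y ^ q - y) + b (z ^ q - z)` with
`deg a, deg b ≤ d - 1 - q` (Alon's combinatorial Nullstellensatz; in Mathlib or by division), and by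
homogenisation `x g₁ = a' (x y ^ q - x ^ q y) + b' (x z ^ q - x ^ q z)`, again values of `D3`. Finally take the
homogeneous component of `v`. -/
def S_MR3 : Prop :=
  ∀ (K : Type) [Field K] [Fintype K] (g : MvPolynomial (Fin 3) K) (d : ℕ), g.IsHomogeneous d →
    (∀ x : Fin 3 → K, eval x g = 0) →
    ∃ v : Fin 3 → MvPolynomial (Fin 3) K, D3 v = g ∧ (g ≠ 0 → Fintype.card K + 1 ≤ d) ∧
      ∀ i, (v i).IsHomogeneous (d - (Fintype.card K + 1))

/-- GC3. The three minors of `θ_0, θ_1` have no common factor. Proof: an irreducible common factor `π` is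
prime; in the fraction field `F` of `S / π` the classes of `θ_0`, `θ_1` are dependent, so by MOO (`m = 2`) the
classes of the `X_i` span a space of dimension at most one over `K`, and `π` divides `lin a`, `lin b` for
independent `a`, `b`, contradiction to PRI. -/
def S_GC3 : Prop :=
  ∀ (K : Type) [Field K] [Fintype K] (p : MvPolynomial (Fin 3) K),
    p ∣ X 0 * X 1 ^ Fintype.card K - X 1 * X 0 ^ Fintype.card K →
    p ∣ X 0 * X 2 ^ Fintype.card K - X 2 * X 0 ^ Fintype.card K →
    p ∣ X 1 * X 2 ^ Fintype.card K - X 2 * X 1 ^ Fintype.card K → IsUnit p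

/-- KR3. Proof: let `M_st = X_s X_t ^ q - X_t X_s ^ q`, `N_st = X_s v_t - X_t v_s`. `D3 v = 0` gives
`N_st M_s't' = N_s't' M_st` (over the fraction field `v = α θ_0 + γ θ_1`, `γ = N_st / M_st`). Write `γ = N / R` in
lowest terms: `R` divides all `M_st`, so it is a unit by GC3 and `γ` is a polynomial; then
`v - γ θ_0^q…`: all `X_s (v_t - γ X_t ^ q) = X_t (v_s - γ X_s ^ q)`, so `v - γ θ_1 = α θ_0` with a polynomial `α`
(`X_s` prime). If `v` is homogeneous of degree `q`, take components: `γ` is a constant. -/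
def S_KR3 : Prop :=
  ∀ (K : Type) [Field K] [Fintype K] (v : Fin 3 → MvPolynomial (Fin 3) K), D3 v = 0 →
    (∃ α γ : MvPolynomial (Fin 3) K, v = α • frob K 3 0 + γ • frob K 3 1) ∧
    ((∀ i, (v i).IsHomogeneous (Fintype.card K)) →
      ∃ (α : MvPolynomial (Fin 3) K) (γ : K), v = α • frob K 3 0 + (C γ : MvPolynomial (Fin 3) K) • frob K 3 1)

/-- CIB. A complete intersection gives freeness. Proof (from DD3, MR3, GC3, KR3, SAI, PRI). First `f ≠ 0`:
otherwise `g` divides all elements of `van A`, for example the minors (they vanish on `K ^ 3`), so it is a unit by GC3,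
but the elements of `van A` vanish on the nonempty `Pts A`. In the same way `g ≠ 0`. `f Q` and `g Q`
vanish on `K ^ 3` (outside of `Pts A` because of `Q`), so by MR3 and DD3 there are `φ, ψ` in `LD A`,
homogeneous of degrees `u + n - (q + 1) = q - v` (`n = card ν`) and `q - u`, with `D3 φ = f Q`, `D3 ψ = g Q`. Choose `i` (`ν` is
not empty) and subtract multiples of `θ_0`: `evl (A i) φ = evl (A i) ψ = 0`. `D3 (g φ - f ψ) = 0` and the field is
homogeneous of degree `q`, so `g φ - f ψ = α θ_0 + γ θ_1`, `γ ∈ K` (KR3). If `γ ≠ 0`: `f det(θ_0, φ, ψ) = ± γ f Q`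
(replace `f ψ`), similarly with `g`, and `f`, `g` are not both `0` (otherwise `van A = 0`, but it contains the
minors), so `det(θ_0, ψ, φ) = ± γ Q` and SAI applies. If `γ = 0`: evaluate at `A i`: `α lin (A i) = 0`, so `g φ = f ψ`; `f`, `g`
have no common factor (GC3, the minors are in `van A`), so `φ = f χ`, `ψ = g χ`, `D3 χ = Q`, `1 ∈ van A`
… more precisely `D3 χ` vanishes at all points of `K ^ 3` and `Q` does not vanish at the given point of
`Pts A`, contradiction. -/
def S_CIB : Prop :=
  ∀ (K : Type) [Field K] [Fintype K] (ν : Type) [Fintype ν] [Nonempty ν] (A : ν → Fin 3 → K) (u v : ℕ)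
    (f g : MvPolynomial (Fin 3) K), Simple A → (Pts A).Nonempty → f.IsHomogeneous u → g.IsHomogeneous v →
    u + v + Fintype.card ν = 2 * Fintype.card K + 1 → van A = Ideal.span {f, g} →
    HasExp A ![1, Fintype.card K - u, Fintype.card K - v]

/-- CIF. Freeness gives a complete intersection. Proof (from DD3, MR3, GC3, CFS, PRI, DET). Let
`θ_0 = ∑ c_j b_j`, `c_j = 0` if `e_j > 1`, a constant if `e_j = 1`. Some `c_j` with `e_j = 1` is not zero: apply
`evl (A i)`: `lin (A i) = ∑ c_j lin (A i) g_j`, and `g_j = 0` if `e_j = 0` by degrees. Let `s, t` be the other two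
indices, `δ = det(θ_0, b_s, b_t)`, `θ_1 = d θ_0 + d_s b_s + d_t b_t`. Then `D3 b_s = - d_t δ`, `D3 b_t = d_s δ`,
`Q ∣ δ` (DET, PRI), `δ = Q τ`. Let `J` be the set of the `f` with `f Q = D3 θ`, `θ ∈ LD A`; it is the ideal
`(τ d_s, τ d_t)`. By MR3 and DD3 all homogeneous `f` vanishing on `Pts A` are in `J`; so `τ` is a unit (GC3), and
a constant; so `1 + e_s + e_t = n`. `τ d_s`, `τ d_t` can be taken homogeneous of degrees `q - e_s`, `q - e_t`
(components; CFS), they vanish on `Pts A`: `D3` vanishes on `K ^ 3` because `x ^ q = x`, and `Q` does not vanish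
on `Pts A`. So `van A = J = (d_s, d_t)`. If `e_s > q` then `d_s = 0`, `d_t` is a unit by GC3 and has a zero, contradiction. -/
def S_CIF : Prop :=
  ∀ (K : Type) [Field K] [Fintype K] (ν : Type) [Fintype ν] [Nonempty ν] (A : ν → Fin 3 → K) (e : Fin 3 → ℕ),
    Simple A → (Pts A).Nonempty → HasExp A e →
    ∃ (u v : ℕ) (f g : MvPolynomial (Fin 3) K), f.IsHomogeneous u ∧ g.IsHomogeneous v ∧
      u + v + Fintype.card ν = 2 * Fintype.card K + 1 ∧ van A = Ideal.span {f, g}

/-- BP3. `Pts A = ∅` (`ν` not empty) is the blocking condition. Proof: a plane of forms is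
`{a : ∑ a_j x_j = 0}` for some `x ≠ 0` (and `x = 0` is not in `Pts A`). -/
def S_BP3 : Prop :=
  ∀ (K : Type) [Field K] (ν : Type) [Nonempty ν] (A : ν → Fin 3 → K), Pts A = ∅ ↔ BlocksD A

/-- The final statement of project TC. -/
def S_FIN3 : Prop :=
  ∀ (K : Type) [Field K] [Fintype K] (n : ℕ) (A : Fin n → Fin 3 → K), 1 ≤ n → Simple A →
    (Module.Free (MvPolynomial (Fin 3) K) (LD A) ↔ Pts A = ∅ ∨
      ∃ (u v : ℕ) (f g : MvPolynomial (Fin 3) K), f.IsHomogeneous u ∧ g.IsHomogeneous v ∧
        u + v + n = 2 * Fintype.card K + 1 ∧ van A = Ideal.span {f, g}) ∧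
    (Pts A = ∅ → HasExp A ![1, Fintype.card K, n - 1 - Fintype.card K]) ∧
    ((Pts A).Nonempty → ∀ (u v : ℕ) (f g : MvPolynomial (Fin 3) K), f.IsHomogeneous u →
      g.IsHomogeneous v → u + v + n = 2 * Fintype.card K + 1 → van A = Ideal.span {f, g} →
      HasExp A ![1, Fintype.card K - u, Fintype.card K - v])

theorem fin3_of (hSUF : S_SUF) (hGRD : S_GRD) (hCIB : S_CIB) (hCIF : S_CIF) (hBP3 : S_BP3) : S_FIN3 := by
  intro K _ _ n A hn hA
  haveI : Nonempty (Fin n) := ⟨⟨0, hn⟩⟩
  have h1 : Pts A = ∅ → HasExp A ![1, Fintype.card K, n - 1 - Fintype.card K] := by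
    intro h
    have h2 := (hSUF K 3 (Fin n) A (by norm_num) hA ((hBP3 K (Fin n) A).1 h)).1
    rw [Fintype.card_fin] at h2
    have h3 : expo (Fintype.card K) 3 n = ![1, Fintype.card K, n - 1 - Fintype.card K] := by
      ext j
      fin_cases j
      · simp [expo]
      · simp [expo]
      · simp [expo, Finset.sum_range_succ, Nat.sub_sub]
    rwa [h3] at h2
  have h2 : (Pts A).Nonempty → ∀ (u v : ℕ) (f g : MvPolynomial (Fin 3) K), f.IsHomogeneous u →
      g.IsHomogeneous v → u + v + n = 2 * Fintype.card K + 1 → van A = Ideal.span {f, g} →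
      HasExp A ![1, Fintype.card K - u, Fintype.card K - v] := by
    intro h u v f g hf hg hd hv
    exact hCIB K (Fin n) A u v f g hA h hf hg (by rw [Fintype.card_fin]; exact hd) hv
  refine ⟨⟨fun hF => ?_, ?_⟩, h1, h2⟩
  · rcases Set.eq_empty_or_nonempty (Pts A) with h | h
    · exact Or.inl h
    · obtain ⟨e, he⟩ := hGRD K 3 (Fin n) A hA hF
      obtain ⟨u, v, f, g, hf, hg, hd, hv⟩ := hCIF K (Fin n) A e hA h he
      rw [Fintype.card_fin] at hd
      exact Or.inr ⟨u, v, f, g, hf, hg, hd, hv⟩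
  · intro h
    rcases Set.eq_empty_or_nonempty (Pts A) with h' | h'
    · obtain ⟨b, _⟩ := h1 h'
      exact Module.Free.of_basis b
    · rcases h with h | ⟨u, v, f, g, hf, hg, hd, hv⟩
      · rw [h] at h'
        exact absurd h' Set.not_nonempty_empty
      · obtain ⟨b, _⟩ := h2 h' u v f g hf hg hd hv
        exact Module.Free.of_basis b

end Pool.Agent.H77.TF
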