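import Mathlib
import Pool.Agent.H77.TF.Stm

set_option autoImplicit false

open MvPolynomial Module

namespace Pool.Agent.H77.TF

theorem sub : S_SUB := by
  intro K _ m h j hj
  classical
  set y : MvPolynomial (Fin m) K := - (C (h j)⁻¹ * ∑ i, C (h (j.succAbove i)) * X i) with hy
  set g : Fin (m + 1) → MvPolynomial (Fin m) K := j.insertNth y (fun i => X i) with hg
  have gj : g j = y := by simp [hg]
  have gs : ∀ i, g (j.succAbove i) = X i := by intro i; simp [hg]
  have hren : ∀ f : MvPolynomial (Fin m) K, aeval g (rename j.succAbove f) = f := by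
    intro f
    rw [aeval_rename]
    have : g ∘ j.succAbove = X := funext gs
    rw [this, aeval_X_left]
    rfl
  have hC : (C (h j) : MvPolynomial (Fin m) K) * C (h j)⁻¹ = 1 := by
    rw [← C_mul, mul_inv_cancel₀ hj, C_1]
  have hC' : (C (h j)⁻¹ : MvPolynomial (Fin (m + 1)) K) * C (h j) = 1 := by
    rw [← C_mul, inv_mul_cancel₀ hj, C_1]
  refine ⟨aeval g, fun i => by rw [aeval_X, gs], ?_, hren, ?_⟩
  · unfold lin
    rw [map_sum, Fin.sum_univ_succAbove _ j]
    simp only [map_mul, aeval_X, gj, gs, algHom_C, algebraMap_eq]
    rw [hy, mul_neg, ← mul_assoc, hC, one_mul, neg_add_cancel]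
  · intro f hf
    have key : ∀ f : MvPolynomial (Fin (m + 1)) K, lin h ∣ f - rename j.succAbove (aeval g f) := by
      intro f
      induction f using MvPolynomial.induction_on with
      | C a => simp
      | add p q hp hq =>
        rw [map_add, map_add]
        have : p + q - (rename j.succAbove (aeval g p) + rename j.succAbove (aeval g q)) =
          (p - rename j.succAbove (aeval g p)) + (q - rename j.succAbove (aeval g q)) := by ring
        rw [this]
        exact dvd_add hp hq
      | mul_X p i hp =>
        have hX : lin h ∣ (X i : MvPolynomial (Fin (m + 1)) K) -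
            rename j.succAbove (aeval g (X i : MvPolynomial (Fin (m + 1)) K)) := by
          rw [aeval_X]
          rcases eq_or_ne i j with rfl | hij
          · rw [gj, hy]
            refine ⟨C (h i)⁻¹, ?_⟩
            unfold lin
            rw [Fin.sum_univ_succAbove _ i]
            simp only [map_neg, map_mul, map_sum, rename_C, rename_X]
            rw [add_mul, mul_comm (C (h i) * X i), ← mul_assoc, hC', one_mul, sub_neg_eq_add,
              mul_comm (C (h i)⁻¹)]
          · obtain ⟨k, rfl⟩ := Fin.exists_succAbove_eq hij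
            rw [gs, rename_X, sub_self]
            exact dvd_zero _
        rw [map_mul, map_mul]
        have : p * X i - rename j.succAbove (aeval g p) *
            rename j.succAbove (aeval g (X i : MvPolynomial (Fin (m + 1)) K)) =
          (p - rename j.succAbove (aeval g p)) * X i + rename j.succAbove (aeval g p) *
            (X i - rename j.succAbove (aeval g (X i : MvPolynomial (Fin (m + 1)) K))) := by ring
        rw [this]
        exact dvd_add (hp.mul_right _) (hX.mul_left _)
    have := key f
    rwa [hf, map_zero, sub_zero] at this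

theorem eval_single_lin {K : Type} [Field K] {l : ℕ} (a : Fin l → K) (j : Fin l) :
    MvPolynomial.eval (Pi.single j 1) (lin a) = a j := by
  classical
  unfold lin
  rw [map_sum]
  simp [Pi.single_apply]

theorem lin_ne_zero {K : Type} [Field K] {l : ℕ} {a : Fin l → K} (ha : a ≠ 0) : lin a ≠ 0 := by
  intro h
  apply ha
  funext j
  rw [← eval_single_lin a j, h, map_zero, Pi.zero_apply]

theorem lin_smul {K : Type} [Field K] {l : ℕ} (c : K) (a : Fin l → K) : lin (c • a) = C c * lin a := by
  unfold lin
  rw [Finset.mul_sum]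
  exact Finset.sum_congr rfl fun i _ => by rw [Pi.smul_apply, smul_eq_mul, C_mul, mul_assoc]

theorem lin_add {K : Type} [Field K] {l : ℕ} (a b : Fin l → K) : lin (a + b) = lin a + lin b := by
  unfold lin
  rw [← Finset.sum_add_distrib]
  exact Finset.sum_congr rfl fun i _ => by rw [Pi.add_apply, C_add, add_mul]

theorem evl_smul {K : Type} [Field K] {l : ℕ} (c : K) (a : Fin l → K) (v : Fin l → MvPolynomial (Fin l) K) :
    evl (c • a) v = C c * evl a v := by
  unfold evl
  rw [Finset.mul_sum]
  exact Finset.sum_congr rfl fun i _ => by rw [Pi.smul_apply, smul_eq_mul, C_mul, mul_assoc]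

theorem evl_add {K : Type} [Field K] {l : ℕ} (a b : Fin l → K) (v : Fin l → MvPolynomial (Fin l) K) :
    evl (a + b) v = evl a v + evl b v := by
  unfold evl
  rw [← Finset.sum_add_distrib]
  exact Finset.sum_congr rfl fun i _ => by rw [Pi.add_apply, C_add, add_mul]

theorem evl_vadd {K : Type} [Field K] {l : ℕ} (a : Fin l → K) (v w : Fin l → MvPolynomial (Fin l) K) :
    evl a (v + w) = evl a v + evl a w := by
  unfold evl
  rw [← Finset.sum_add_distrib]
  exact Finset.sum_congr rfl fun i _ => by rw [Pi.add_apply, mul_add]

theorem evl_vsmul {K : Type} [Field K] {l : ℕ} (a : Fin l → K) (f : MvPolynomial (Fin l) K)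
    (v : Fin l → MvPolynomial (Fin l) K) : evl a (f • v) = f * evl a v := by
  unfold evl
  rw [Finset.mul_sum]
  exact Finset.sum_congr rfl fun i _ => by rw [Pi.smul_apply, smul_eq_mul]; ring

theorem evl_vsum {K : Type} [Field K] {l : ℕ} {κ : Type*} (s : Finset κ) (a : Fin l → K)
    (v : κ → Fin l → MvPolynomial (Fin l) K) : evl a (∑ k ∈ s, v k) = ∑ k ∈ s, evl a (v k) := by
  unfold evl
  rw [Finset.sum_comm]
  exact Finset.sum_congr rfl fun i _ => by rw [Finset.sum_apply, Finset.mul_sum]

theorem evl_vsub {K : Type} [Field K] {l : ℕ} (a : Fin l → K) (v w : Fin l → MvPolynomial (Fin l) K) :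
    evl a (v - w) = evl a v - evl a w := by
  unfold evl
  rw [← Finset.sum_sub_distrib]
  exact Finset.sum_congr rfl fun i _ => by rw [Pi.sub_apply, mul_sub]

theorem evl_X {K : Type} [Field K] {l : ℕ} (a : Fin l → K) : evl a X = lin a := rfl

/-- The Frobenius fields are logarithmic for every form over `K`. -/
theorem evl_frob {K : Type} [Field K] [Fintype K] {l : ℕ} (a : Fin l → K) (k : ℕ) :
    evl a (frob K l k) = lin a ^ (Fintype.card K ^ k) := by
  obtain ⟨p, hp⟩ := CharP.exists K
  haveI := hp
  obtain ⟨n, hpr, hq⟩ := FiniteField.card K p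
  haveI : Fact p.Prime := ⟨hpr⟩
  haveI : CharP (MvPolynomial (Fin l) K) p := inferInstance
  have h1 : ∀ f : Fin l → MvPolynomial (Fin l) K,
      (∑ i, f i) ^ (Fintype.card K ^ k) = ∑ i, f i ^ (Fintype.card K ^ k) := by
    intro f
    rw [hq, ← pow_mul, sum_pow_char_pow]
  unfold evl lin frob
  rw [h1]
  refine Finset.sum_congr rfl fun i _ => ?_
  rw [mul_pow, ← C_pow, FiniteField.pow_card_pow]

theorem evl_frob_dvd {K : Type} [Field K] [Fintype K] {l : ℕ} (a : Fin l → K) (k : ℕ) :
    lin a ∣ evl a (frob K l k) := by
  rw [evl_frob]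
  exact dvd_pow_self _ (pow_pos Fintype.card_pos _).ne'

theorem pri : S_PRI := by
  intro K _ l a ha
  cases l with
  | zero => exact absurd (funext fun i => i.elim0) ha
  | succ m =>
    obtain ⟨j, hj⟩ : ∃ j, a j ≠ 0 := by
      by_contra hc
      push_neg at hc
      exact ha (funext hc)
    obtain ⟨ρ, hs, h0, hr, hk⟩ := sub K m a j hj
    refine ⟨⟨lin_ne_zero ha, ?_, ?_⟩, ?_⟩
    · intro hu
      have := hu.map ρ
      rw [h0] at this
      exact not_isUnit_zero this
    · intro f g hfg
      have : ρ f * ρ g = 0 := by
        obtain ⟨c, hc⟩ := hfg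
        rw [← map_mul, hc, map_mul, h0, zero_mul]
      rcases mul_eq_zero.mp this with h | h
      · exact Or.inl (hk f h)
      · exact Or.inr (hk g h)
    · intro b hb
      refine ⟨b j * (a j)⁻¹, ?_⟩
      have hb0 : ρ (lin b) = 0 := by
        obtain ⟨c, hc⟩ := hb
        rw [hc, map_mul, h0, zero_mul]
      have hb1 : ρ (lin (b - (b j * (a j)⁻¹) • a)) = 0 := by
        have : lin (b - (b j * (a j)⁻¹) • a) = lin b - C (b j * (a j)⁻¹) * lin a := by
          rw [sub_eq_add_neg, lin_add, ← neg_smul, lin_smul, C_neg]
          ring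
        rw [this, map_sub, hb0, map_mul, h0]
        ring
      have hj0 : (b - (b j * (a j)⁻¹) • a) j = 0 := by
        simp [inv_mul_cancel₀ hj, mul_assoc]
      set d := b - (b j * (a j)⁻¹) • a with hd
      have hd0 : d = 0 := by
        funext i
        rcases eq_or_ne i j with rfl | hij
        · exact hj0
        · obtain ⟨k, rfl⟩ := Fin.exists_succAbove_eq hij
          have h2 : ρ (lin d) = ∑ i, C (d (j.succAbove i)) * X i := by
            unfold lin
            rw [map_sum, Fin.sum_univ_succAbove _ j, hj0]
            simp only [map_mul, hs, map_zero, zero_mul, zero_add]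
            refine Finset.sum_congr rfl fun i _ => ?_
            rw [algHom_C, algebraMap_eq]
          rw [hb1] at h2
          have h3 := eval_single_lin (fun i => d (j.succAbove i)) k
          unfold lin at h3
          rw [← h2, map_zero] at h3
          exact h3.symm
      have : b = d + (b j * (a j)⁻¹) • a := by rw [hd]; abel
      rw [hd0, zero_add] at this
      exact this

end Pool.Agent.H77.TF
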