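import Mathlib
import Pool.Agent.H77.TF.Stm

set_option autoImplicit false

open MvPolynomial Module

namespace Pool.Agent.H77.TF

/-- The final statement. -/
def S_FIN : Prop :=
  ∀ (K : Type) [Field K] [Fintype K] (l : ℕ), 3 ≤ l →
    (∀ (n : ℕ) (A : Fin n → Fin l → K), Simple A →
      List.TFAE [Blocks A, HasExp A (expo (Fintype.card K) l n),
        ∃ e, HasExp A e ∧ ∃ j, Fintype.card K ^ (l - 2) ≤ e j] ∧
      (thr (Fintype.card K) l ≤ n →
        (Module.Free (MvPolynomial (Fin l) K) (LD A) ↔ Blocks A))) ∧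
    (∃ A : Fin (thr (Fintype.card K) l - 1) → Fin l → K, Simple A ∧
      Module.Free (MvPolynomial (Fin l) K) (LD A) ∧ ¬ Blocks A) ∧
    ∀ (n m : ℕ) (A : Fin n → Fin l → K) (B : Fin m → Fin l → K), Simple A → Simple B →
      Nonempty (Lat A ≃o Lat B) →
      ((thr (Fintype.card K) l ≤ n ∧ Module.Free (MvPolynomial (Fin l) K) (LD A)) ∨
        ∃ e, HasExp A e ∧ ∃ j, Fintype.card K ^ (l - 2) ≤ e j) →
      m = n ∧ HasExp A (expo (Fintype.card K) l n) ∧ HasExp B (expo (Fintype.card K) l n)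

theorem free_of_hasExp {K : Type} [Field K] {l : ℕ} {ν : Type} {A : ν → Fin l → K} {e : Fin l → ℕ}
    (h : HasExp A e) : Module.Free (MvPolynomial (Fin l) K) (LD A) := by
  obtain ⟨b, _⟩ := h
  exact Module.Free.of_basis b

theorem fin_of (hSUF : S_SUF) (hGRD : S_GRD) (hCNT : S_CNT) (hNEC : S_NEC) (hDUA : S_DUA) (hBIJ : S_BIJ)
    (hLAT : S_LAT) (hSHP : S_SHP) : S_FIN := by
  intro K _ _ l hl
  have h12 : ∀ (n : ℕ) (A : Fin n → Fin l → K), Simple A → Blocks A →
      HasExp A (expo (Fintype.card K) l n) := by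
    intro n A hA hB
    have := (hSUF K l (Fin n) A (by omega) hA ((hDUA K l (Fin n) A (by omega)).mp hB)).1
    rwa [Fintype.card_fin] at this
  have h31 : ∀ (n : ℕ) (A : Fin n → Fin l → K), Simple A →
      (∃ e, HasExp A e ∧ ∃ j, Fintype.card K ^ (l - 2) ≤ e j) → Blocks A := by
    rintro n A hA ⟨e, he, j, hj⟩
    exact (hDUA K l (Fin n) A (by omega)).mpr (hNEC K l (Fin n) A e j hl hA he hj)
  have h23 : ∀ (n : ℕ) (A : Fin n → Fin l → K), HasExp A (expo (Fintype.card K) l n) →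
      ∃ e, HasExp A e ∧ ∃ j, Fintype.card K ^ (l - 2) ≤ e j := by
    intro n A hA
    refine ⟨_, hA, ⟨l - 2, by omega⟩, ?_⟩
    unfold expo
    rw [if_neg (by simp only; omega)]
  have hfree : ∀ (n : ℕ) (A : Fin n → Fin l → K), Simple A → thr (Fintype.card K) l ≤ n →
      Module.Free (MvPolynomial (Fin l) K) (LD A) → Blocks A := by
    intro n A hA hn hF
    obtain ⟨e, he⟩ := hGRD K l (Fin n) A hA hF
    refine h31 n A hA ⟨e, he, ?_⟩
    exact hCNT K l (Fin n) A e hl hA he (by rwa [Fintype.card_fin])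
  refine ⟨fun n A hA => ⟨?_, fun hn => ⟨hfree n A hA hn, fun hB => free_of_hasExp (h12 n A hA hB)⟩⟩,
    ?_, ?_⟩
  · tfae_have 1 → 2 := h12 n A hA
    tfae_have 2 → 3 := h23 n A
    tfae_have 3 → 1 := h31 n A hA
    tfae_finish
  · obtain ⟨A, hA, hF, hn⟩ := hSHP K l hl
    exact ⟨A, hA, hF, fun hB => hn ((hDUA K l _ A (by omega)).mp hB)⟩
  · intro n m A B hA hB hiso h
    have hbA : Blocks A := by
      rcases h with ⟨h1, h2⟩ | h
      · exact hfree n A hA h1 h2
      · exact h31 n A hA h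
    obtain ⟨β, hβ⟩ := hBIJ K l n m A B hA hB hiso
    have hmn : m = n := by
      have := Fintype.card_congr β
      rw [Fintype.card_fin, Fintype.card_fin] at this
      exact this.symm
    have hbB : Blocks B := (hDUA K l (Fin m) B (by omega)).mpr
      (hLAT K l n m A B hA hB β hβ ((hDUA K l (Fin n) A (by omega)).mp hbA))
    refine ⟨hmn, h12 n A hA hbA, ?_⟩
    subst hmn
    exact h12 _ B hB hbB

end Pool.Agent.H77.TF
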