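import Mathlib
import Pool.Agent.H77.TF.Stm
import Pool.Agent.H77.TF.Stm2
import Pool.Agent.H77.TF.Fin

set_option autoImplicit false

open MvPolynomial Module

namespace Pool.Agent.H77.TF

/-- The final statement of project TG. -/
def S_FIN2 : Prop :=
  ∀ (K : Type) [Field K] [Fintype K] (l : ℕ), 3 ≤ l → 2 < Fintype.card K ^ (l - 2) →
    (∀ (n : ℕ) (A : Fin n → Fin l → K), Simple A →
      (unc A = 0 ∨ thr (Fintype.card K) l ≤ unc A + n) ∧
      List.TFAE [unc A = 0 ∨ unc A + n = thr (Fintype.card K) l,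
        HasExp A (expo (Fintype.card K) l n) ∨ HasExp A (expo2 (Fintype.card K) l n),
        ∃ e, HasExp A e ∧ ∃ j, Fintype.card K ^ (l - 2) ≤ e j + 1] ∧
      (thr (Fintype.card K) l ≤ n + 2 →
        (Module.Free (MvPolynomial (Fin l) K) (LD A) ↔
          unc A = 0 ∨ unc A + n = thr (Fintype.card K) l))) ∧
    ∀ (n m : ℕ) (A : Fin n → Fin l → K) (B : Fin m → Fin l → K), Simple A → Simple B →
      Nonempty (Lat A ≃o Lat B) →
      ((thr (Fintype.card K) l ≤ n + 2 ∧ Module.Free (MvPolynomial (Fin l) K) (LD A)) ∨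
        ∃ e, HasExp A e ∧ ∃ j, Fintype.card K ^ (l - 2) ≤ e j + 1) →
      m = n ∧ ∃ e, HasExp A e ∧ HasExp B e

theorem uncD_eq_zero {K : Type} [Field K] [Fintype K] {l : ℕ} {ν : Type} {A : ν → Fin l → K} :
    uncD A = 0 ↔ BlocksD A := by
  unfold uncD BlocksD
  haveI : Finite (Submodule K (Fin l → K)) := inferInstance
  rw [Nat.card_eq_zero, or_iff_left (by
    intro h
    exact h.not_finite inferInstance), isEmpty_subtype]
  constructor
  · intro h W hW
    by_contra hc
    push Not at hc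
    exact h W ⟨hW, hc⟩
  · rintro h W ⟨hW, hc⟩
    obtain ⟨i, hi⟩ := h W hW
    exact hc i hi

theorem fin2_of (hSUF : S_SUF) (hGRD : S_GRD) (hNEC : S_NEC) (hBIJ : S_BIJ) (hGEN : S_GEN)
    (hDEL : S_DEL) (hNC2 : S_NC2) (hCN2 : S_CN2) (hLT2 : S_LT2) (hDU2 : S_DU2) : S_FIN2 := by
  intro K _ _ l hl hq
  have hgen : ∀ (n : ℕ) (A : Fin n → Fin l → K),
      uncD A = 0 ∨ thr (Fintype.card K) l ≤ uncD A + n := by
    intro n A
    have := (hGEN K l (Fin n) A hl).1
    rwa [Fintype.card_fin] at this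
  have h0 : ∀ (n : ℕ) (A : Fin n → Fin l → K), Simple A → uncD A = 0 →
      HasExp A (expo (Fintype.card K) l n) := by
    intro n A hA h
    have := (hSUF K l (Fin n) A (by omega) hA (uncD_eq_zero.1 h)).1
    rwa [Fintype.card_fin] at this
  have h1 : ∀ (n : ℕ) (A : Fin n → Fin l → K), Simple A → uncD A ≠ 0 →
      uncD A + n = thr (Fintype.card K) l → HasExp A (expo2 (Fintype.card K) l n) := by
    intro n A hA h hn
    have hn' : uncD A + Fintype.card (Fin n) = thr (Fintype.card K) l := by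
      rwa [Fintype.card_fin]
    obtain ⟨r, hr, hW⟩ := (hGEN K l (Fin n) A hl).2 hn'
    have := hDEL K l (Fin n) A r hl hA hr h hn' hW
    rwa [Fintype.card_fin] at this
  have h31 : ∀ (n : ℕ) (A : Fin n → Fin l → K), Simple A →
      (∃ e, HasExp A e ∧ ∃ j, Fintype.card K ^ (l - 2) ≤ e j + 1) →
      uncD A = 0 ∨ uncD A + n = thr (Fintype.card K) l := by
    rintro n A hA ⟨e, he, j, hj⟩
    rcases Nat.lt_or_ge (e j) (Fintype.card K ^ (l - 2)) with hlt | hge
    · have hj' : e j + 1 = Fintype.card K ^ (l - 2) := by omega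
      rcases hNC2 K l (Fin n) A e j hl hq hA he hj' with h | h
      · exact Or.inl h
      · rw [Fintype.card_fin] at h
        rcases hgen n A with h' | h'
        · exact Or.inl h'
        · right
          omega
    · exact Or.inl (uncD_eq_zero.2 (hNEC K l (Fin n) A e j hl hA he hge))
  have hfree : ∀ (n : ℕ) (A : Fin n → Fin l → K), Simple A → thr (Fintype.card K) l ≤ n + 2 →
      Module.Free (MvPolynomial (Fin l) K) (LD A) →
      ∃ e, HasExp A e ∧ ∃ j, Fintype.card K ^ (l - 2) ≤ e j + 1 := by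
    intro n A hA hn hF
    obtain ⟨e, he⟩ := hGRD K l (Fin n) A hA hF
    exact ⟨e, he, hCN2 K l (Fin n) A e hl hA he (by rwa [Fintype.card_fin])⟩
  have h12 : ∀ (n : ℕ) (A : Fin n → Fin l → K), Simple A →
      (uncD A = 0 ∨ uncD A + n = thr (Fintype.card K) l) →
      HasExp A (expo (Fintype.card K) l n) ∨ HasExp A (expo2 (Fintype.card K) l n) := by
    intro n A hA h
    by_cases h2 : uncD A = 0
    · exact Or.inl (h0 n A hA h2)
    · exact Or.inr (h1 n A hA h2 (h.resolve_left h2))
  have h23 : ∀ (n : ℕ) (A : Fin n → Fin l → K),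
      (HasExp A (expo (Fintype.card K) l n) ∨ HasExp A (expo2 (Fintype.card K) l n)) →
      ∃ e, HasExp A e ∧ ∃ j, Fintype.card K ^ (l - 2) ≤ e j + 1 := by
    rintro n A (hA | hA)
    · refine ⟨_, hA, ⟨l - 2, by omega⟩, ?_⟩
      unfold expo
      rw [if_neg (by simp only; omega)]
      exact Nat.le_succ _
    · refine ⟨_, hA, ⟨l - 2, by omega⟩, ?_⟩
      unfold expo2
      rw [if_neg (by simp only; omega), if_pos (by simp only; omega)]
      omega
  refine ⟨fun n A hA => ?_, ?_⟩
  · rw [hDU2 K l (Fin n) A (by omega)]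
    refine ⟨hgen n A, ?_, fun hn => ⟨fun hF => h31 n A hA (hfree n A hA hn hF), fun h => ?_⟩⟩
    · tfae_have 1 → 2 := h12 n A hA
      tfae_have 2 → 3 := h23 n A
      tfae_have 3 → 1 := h31 n A hA
      tfae_finish
    · rcases h12 n A hA h with h' | h'
      · exact free_of_hasExp h'
      · exact free_of_hasExp h'
  · intro n m A B hA hB hiso h
    have hA1 : uncD A = 0 ∨ uncD A + n = thr (Fintype.card K) l := by
      rcases h with ⟨h2, h3⟩ | h
      · exact h31 n A hA (hfree n A hA h2 h3)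
      · exact h31 n A hA h
    obtain ⟨β, hβ⟩ := hBIJ K l n m A B hA hB hiso
    have hmn : m = n := by
      have := Fintype.card_congr β
      rw [Fintype.card_fin, Fintype.card_fin] at this
      exact this.symm
    have hu := hLT2 K l n m A B hA hB β hβ
    refine ⟨hmn, ?_⟩
    subst hmn
    by_cases h2 : uncD A = 0
    · exact ⟨_, h0 _ A hA h2, h0 _ B hB (by rw [← hu]; exact h2)⟩
    · have h4 := hA1.resolve_left h2
      exact ⟨_, h1 _ A hA h2 h4, h1 _ B hB (by rw [← hu]; exact h2) (by rw [← hu]; exact h4)⟩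

end Pool.Agent.H77.TF
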