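import Pool.Agent.H77.TF.Stm3

/-!
# Module BP3 of project TC: uncovered points and the blocking condition
-/

set_option autoImplicit false

open MvPolynomial Module

namespace Pool.Agent.H77.TF

lemma finrank_ker_two {K : Type} [Field K] (f : (Fin 3 → K) →ₗ[K] K) (hf : f ≠ 0) :
    finrank K (LinearMap.ker f) = 2 := by
  have h1 := LinearMap.finrank_range_add_finrank_ker f
  have h2 : LinearMap.range f = ⊤ := LinearMap.range_eq_top.2 (LinearMap.surjective hf)
  rw [h2, finrank_top, Module.finrank_self, Module.finrank_fin_fun] at h1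
  omega

/-- Module BP3. -/
theorem bp3 : S_BP3 := by
  intro K _ ν _ A
  classical
  constructor
  · intro h W hW
    have hlt : W < ⊤ := by
      rw [lt_top_iff_ne_top]
      intro h0
      rw [h0, finrank_top, Module.finrank_fin_fun] at hW
      omega
    obtain ⟨f, hf, hWf⟩ := Submodule.exists_le_ker_of_lt_top W hlt
    have hWe : W = LinearMap.ker f :=
      Submodule.eq_of_le_of_finrank_eq hWf (by rw [hW, finrank_ker_two f hf])
    by_contra hc
    push Not at hc
    have hx : (fun j => f (Pi.single j 1)) ∈ Pts A := by
      intro i h0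
      apply hc i
      rw [hWe, LinearMap.mem_ker, ← h0]
      conv_lhs => rw [LinearMap.pi_apply_eq_sum_univ f (A i)]
      refine Finset.sum_congr rfl fun j _ => ?_
      rw [smul_eq_mul]
      congr 2
      ext k
      rw [Pi.single_apply]
      by_cases hjk : j = k
      · subst hjk; simp
      · rw [if_neg hjk, if_neg (Ne.symm hjk)]
    rw [h] at hx
    exact hx
  · intro h
    rw [Set.eq_empty_iff_forall_notMem]
    intro x hx
    let f : (Fin 3 → K) →ₗ[K] K := ∑ j, x j • (LinearMap.proj j : (Fin 3 → K) →ₗ[K] K)
    have hfa : ∀ a, f a = ∑ j, a j * x j := by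
      intro a
      simp only [f, LinearMap.sum_apply, LinearMap.smul_apply, LinearMap.proj_apply, smul_eq_mul]
      exact Finset.sum_congr rfl fun j _ => mul_comm _ _
    have hf : f ≠ 0 := by
      intro h0
      have h1 := hx (Classical.arbitrary ν)
      rw [← hfa, h0] at h1
      exact h1 rfl
    obtain ⟨i, hi⟩ := h (LinearMap.ker f) (finrank_ker_two f hf)
    rw [LinearMap.mem_ker, hfa] at hi
    exact hx i hi

end Pool.Agent.H77.TF
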