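import Mathlib
import Pool.Agent.H77.TF.Pri

set_option autoImplicit false

open MvPolynomial Module

namespace Pool.Agent.H77.TF

theorem det : S_DET := by
  intro K _ l a ha w hw
  have hp := (pri K l a ha).1
  set I : Ideal (MvPolynomial (Fin l) K) := Ideal.span {lin a} with hI
  have hIp : I.IsPrime := (Ideal.span_singleton_prime hp.ne_zero).mpr hp
  set π : MvPolynomial (Fin l) K →+* MvPolynomial (Fin l) K ⧸ I := Ideal.Quotient.mk I with hπ
  have hz : ∀ f, π f = 0 ↔ lin a ∣ f := by
    intro f
    rw [hπ, Ideal.Quotient.eq_zero_iff_mem, hI, Ideal.mem_span_singleton]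
  rw [← hz, RingHom.map_det, RingHom.mapMatrix_apply]
  rw [← Matrix.exists_mulVec_eq_zero_iff]
  refine ⟨fun i => π (C (a i)), ?_, ?_⟩
  · intro h0
    obtain ⟨j, hj⟩ : ∃ j, a j ≠ 0 := by
      by_contra hc
      push Not at hc
      exact ha (funext hc)
    have h1 := congrFun h0 j
    simp only [Pi.zero_apply] at h1
    rw [hz] at h1
    have hu : IsUnit (C (a j) : MvPolynomial (Fin l) K) := (IsUnit.mk0 _ hj).map C
    exact hp.not_isUnit (isUnit_of_dvd_unit h1 hu)
  · funext k
    rw [Matrix.mulVec, dotProduct, Pi.zero_apply]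
    have : ∑ i, (Matrix.of w).map π k i * π (C (a i)) = π (evl a (w k)) := by
      unfold evl
      rw [map_sum]
      exact Finset.sum_congr rfl fun i _ => by rw [map_mul, Matrix.map_apply, Matrix.of_apply, mul_comm]
    rw [this, hz]
    exact hw k

end Pool.Agent.H77.TF
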