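import Mathlib
import Pool.Agent.H77.TF.Pri

set_option autoImplicit false

open Module

namespace Pool.Agent.H77.TF

open Polynomial in
theorem moo : S_MOO := by
  intro K _ _ F _ _ l m x c hc h
  classical
  obtain ⟨p, hp⟩ := CharP.exists K
  obtain ⟨n, hpr, hq⟩ := FiniteField.card K p
  have : Fact p.Prime := ⟨hpr⟩
  have : CharP F p := charP_of_injective_algebraMap (algebraMap K F).injective p
  have hq1 : 1 < Fintype.card K := Fintype.one_lt_card
  have hfr : ∀ (k : ℕ) (y z : F), (y + z) ^ (Fintype.card K ^ k) =
      y ^ (Fintype.card K ^ k) + z ^ (Fintype.card K ^ k) := by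
    intro k y z
    rw [hq, ← pow_mul]
    exact add_pow_char_pow _ _ _ _
  have hcs : ∀ (k : ℕ) (a : K) (y : F), (a • y) ^ (Fintype.card K ^ k) =
      a • y ^ (Fintype.card K ^ k) := by
    intro k a y
    rw [Algebra.smul_def, mul_pow, ← map_pow, FiniteField.pow_card_pow, ← Algebra.smul_def]
  set P : F[X] := ∑ k : Fin m, C (c k) * X ^ (Fintype.card K ^ (k : ℕ)) with hP
  have hev : ∀ y : F, P.eval y = ∑ k : Fin m, c k * y ^ (Fintype.card K ^ (k : ℕ)) := by
    intro y
    rw [hP, eval_finsetSum]
    exact Finset.sum_congr rfl fun k _ => by rw [eval_mul, eval_C, eval_pow, eval_X]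
  have hroot : ∀ y ∈ Submodule.span K (Set.range x), P.eval y = 0 := by
    intro y hy
    induction hy using Submodule.span_induction with
    | mem y hy =>
      obtain ⟨i, rfl⟩ := hy
      rw [hev]
      exact h i
    | zero =>
      rw [hev]
      refine Finset.sum_eq_zero fun k _ => ?_
      rw [zero_pow (pow_pos (by omega) _).ne', mul_zero]
    | add y z _ _ hy hz =>
      have : P.eval (y + z) = P.eval y + P.eval z := by
        rw [hev, hev, hev, ← Finset.sum_add_distrib]
        exact Finset.sum_congr rfl fun k _ => by rw [hfr, mul_add]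
      rw [this, hy, hz, add_zero]
    | smul a y _ hy =>
      have : P.eval (a • y) = a • P.eval y := by
        rw [hev, hev, Finset.smul_sum]
        exact Finset.sum_congr rfl fun k _ => by rw [hcs, mul_smul_comm]
      rw [this, hy, smul_zero]
  obtain ⟨k₀, hk₀⟩ : ∃ k, c k ≠ 0 := by
    by_contra hcon
    push Not at hcon
    exact hc (funext hcon)
  have hm : 0 < m := Fin.pos k₀
  have hP0 : P ≠ 0 := by
    intro h0
    apply hk₀
    have h1 : P.coeff (Fintype.card K ^ (k₀ : ℕ)) = c k₀ := by
      rw [hP, finsetSum_coeff]
      rw [Finset.sum_eq_single k₀]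
      · rw [coeff_C_mul_X_pow, if_pos rfl]
      · intro b _ hb
        rw [coeff_C_mul_X_pow, if_neg]
        intro he
        exact hb (Fin.ext (Nat.pow_right_injective hq1 he).symm)
      · intro hn
        exact absurd (Finset.mem_univ _) hn
    rw [← h1, h0, coeff_zero]
  have hdeg : P.natDegree ≤ Fintype.card K ^ (m - 1) := by
    rw [hP]
    refine natDegree_sum_le_of_forall_le _ _ fun k _ => ?_
    refine (natDegree_C_mul_X_pow_le _ _).trans ?_
    exact Nat.pow_le_pow_right (by omega) (by have := k.2; omega)
  have hfin : Module.Finite K (Submodule.span K (Set.range x)) :=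
    Module.Finite.span_of_finite K (Set.finite_range x)
  have hF : Finite (Submodule.span K (Set.range x)) := Module.finite_of_finite K
  have hcard : Nat.card (Submodule.span K (Set.range x)) ≤ P.natDegree := by
    have hinj : Function.Injective (fun y : Submodule.span K (Set.range x) =>
        (⟨(y : F), by
          rw [Multiset.mem_toFinset, mem_roots hP0]
          exact hroot _ y.2⟩ : {z // z ∈ P.roots.toFinset})) := by
      intro y z hyz
      simp only [Subtype.mk.injEq] at hyz
      exact Subtype.ext hyz
    have h1 := Nat.card_le_card_of_injective _ hinj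
    have h2 : Nat.card {z // z ∈ P.roots.toFinset} = P.roots.toFinset.card := by
      rw [Nat.card_eq_fintype_card, Fintype.card_coe]
    rw [h2] at h1
    exact h1.trans ((Multiset.toFinset_card_le _).trans (card_roots' P))
  rw [Module.natCard_eq_pow_finrank (K := K), Nat.card_eq_fintype_card] at hcard
  have h3 := (Nat.pow_le_pow_iff_right hq1).mp (hcard.trans hdeg)
  omega

end Pool.Agent.H77.TF
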