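import Pool.Agent.H77.TF.Stm3
import Pool.Agent.H77.TF.Pri
import Pool.Agent.H77.TF.Moo
import Pool.Agent.H39.TF.Uni

/-!
# Module GC3 of project TC: the three minors of `θ_0, θ_1` have no common factor
-/

set_option autoImplicit false

open MvPolynomial Module

namespace Pool.Agent.H77.TF

/-- If the minors are in the prime ideal `P`, then so are two independent linear forms. -/
lemma minors_mem {K : Type} [Field K] [Fintype K] (P : Ideal (MvPolynomial (Fin 3) K))
    [hP : P.IsPrime]
    (h : ∀ s t : Fin 3, (X s * X t ^ Fintype.card K - X t * X s ^ Fintype.card K :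
      MvPolynomial (Fin 3) K) ∈ P) :
    ∃ a b : Fin 3 → K, a ≠ 0 ∧ (∀ d : K, b ≠ d • a) ∧ lin a ∈ P ∧ lin b ∈ P := by
  classical
  let F := FractionRing (MvPolynomial (Fin 3) K ⧸ P)
  let φ : MvPolynomial (Fin 3) K →ₐ[K] F :=
    (IsScalarTower.toAlgHom K (MvPolynomial (Fin 3) K ⧸ P) F).comp (Ideal.Quotient.mkₐ K P)
  have hφ : ∀ f, φ f = 0 ↔ f ∈ P := by
    intro f
    have h1 : φ f = algebraMap (MvPolynomial (Fin 3) K ⧸ P) F (Ideal.Quotient.mk P f) := rfl
    rw [h1, map_eq_zero_iff _ (IsFractionRing.injective _ F), Ideal.Quotient.eq_zero_iff_mem]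
  have hx : ∀ s t : Fin 3, φ (X s) * φ (X t) ^ Fintype.card K = φ (X t) * φ (X s) ^ Fintype.card K := by
    intro s t
    have h1 := (hφ _).2 (h s t)
    rw [map_sub, map_mul, map_mul, map_pow, map_pow, sub_eq_zero] at h1
    exact h1
  obtain ⟨c, hc0, hc⟩ : ∃ c : Fin 2 → F, c ≠ 0 ∧
      ∀ i, ∑ k, c k * (φ (X i)) ^ (Fintype.card K ^ (k : ℕ)) = 0 := by
    by_cases h0 : ∀ i, φ (X i) = 0
    · refine ⟨![1, 0], fun hc => ?_, fun i => ?_⟩
      · have := congrFun hc 0
        simp at this
      · simp [h0 i]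
    · push Not at h0
      obtain ⟨s, hs⟩ := h0
      refine ⟨![φ (X s) ^ Fintype.card K, - φ (X s)], fun hc => ?_, fun i => ?_⟩
      · have := congrFun hc 1
        simp at this
        exact hs this
      · rw [Fin.sum_univ_two]
        simp only [Matrix.cons_val_zero, Matrix.cons_val_one, Fin.val_zero, Fin.val_one, pow_zero,
          pow_one]
        have := hx s i
        linear_combination - this
  obtain ⟨a, b, ha, hb, ha1, hb1⟩ := Pool.Agent.H39.TF.exists_two _
    (moo K F 3 2 (fun i => φ (X i)) c hc0 hc)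
  have hlin : ∀ a : Fin 3 → K, φ (lin a) = ∑ i, a i • φ (X i) := by
    intro a
    unfold lin
    rw [map_sum]
    refine Finset.sum_congr rfl fun i _ => ?_
    rw [map_mul, Algebra.smul_def, ← MvPolynomial.algebraMap_eq, AlgHom.commutes]
  exact ⟨a, b, ha, hb, (hφ _).1 (by rw [hlin, ha1]), (hφ _).1 (by rw [hlin, hb1])⟩

/-- Module GC3. -/
theorem gc3 : S_GC3 := by
  intro K _ _ p h01 h02 h12
  by_contra hu
  have hall : ∀ (r : MvPolynomial (Fin 3) K), r ∣ p → ∀ s t : Fin 3,
      (X s * X t ^ Fintype.card K - X t * X s ^ Fintype.card K :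
      MvPolynomial (Fin 3) K) ∈ Ideal.span {r} := by
    intro r hr s t
    rw [Ideal.mem_span_singleton]
    have h01' := hr.trans h01
    have h02' := hr.trans h02
    have h12' := hr.trans h12
    fin_cases s <;> fin_cases t
    · simp
    · exact h01'
    · exact h02'
    · have := (dvd_neg.2 h01'); rw [neg_sub] at this; exact this
    · simp
    · exact h12'
    · have := (dvd_neg.2 h02'); rw [neg_sub] at this; exact this
    · have := (dvd_neg.2 h12'); rw [neg_sub] at this; exact this
    · simp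
  have hp0 : p ≠ 0 := by
    intro h0
    haveI : (Ideal.span {p}).IsPrime := by
      rw [h0, Ideal.span_singleton_eq_bot.2 rfl]
      exact Ideal.isPrime_bot
    obtain ⟨a, b, ha, _, ha', _⟩ := minors_mem (Ideal.span {p}) (hall p dvd_rfl)
    rw [h0, Ideal.span_singleton_eq_bot.2 rfl] at ha'
    exact lin_ne_zero ha ((Submodule.mem_bot _).1 ha')
  obtain ⟨π, hπ, hπd⟩ := WfDvdMonoid.exists_irreducible_factor hu hp0
  have hπp : Prime π := UniqueFactorizationMonoid.irreducible_iff_prime.1 hπ
  haveI : (Ideal.span {π}).IsPrime := (Ideal.span_singleton_prime hπp.ne_zero).2 hπp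
  obtain ⟨a, b, ha, hb, ha', hb'⟩ := minors_mem (Ideal.span {π}) (hall π hπd)
  rw [Ideal.mem_span_singleton] at ha' hb'
  obtain ⟨hpa, hab⟩ := pri K 3 a ha
  have hassoc : Associated π (lin a) := (hπ.dvd_irreducible_iff_associated hpa.irreducible).1 ha'
  obtain ⟨d, hd⟩ := hab b (hassoc.symm.dvd.trans hb')
  exact hb d hd

end Pool.Agent.H77.TF
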