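import Mathlib
import Pool.Agent.H77.TF.Pri

set_option autoImplicit false

open MvPolynomial Module

namespace Pool.Agent.H77.TF

theorem simple_rep (K : Type) [Field K] (l : ℕ) :
    Simple (fun p : Projectivization K (Fin l → K) => p.rep) := by
  refine ⟨fun p => p.rep_nonzero, fun p p' hne c h => hne ?_⟩
  have hc : c ≠ 0 := by
    rintro rfl
    rw [zero_smul] at h
    exact p.rep_nonzero h
  rw [← p.mk_rep, ← p'.mk_rep, Projectivization.mk_eq_mk_iff']
  exact ⟨c, h.symm⟩

theorem ful (hS : S_SAI) (hM : S_MDT) : S_FUL := by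
  intro K _ _ l v hv
  classical
  have : Fintype (Projectivization K (Fin l → K)) := Fintype.ofFinite _
  obtain ⟨c, hc, hd⟩ := hM K l
  obtain ⟨b, hb⟩ := hS K l (Projectivization K (Fin l → K)) (fun p => p.rep) (simple_rep K l)
    (fun k i => frob K l k i) c hc (fun k p => evl_frob_dvd _ _) (by
      rw [hd, finprod_eq_prod_of_fintype])
  have hvm : v ∈ LD (fun p : Projectivization K (Fin l → K) => p.rep) :=
    fun p => hv _ p.rep_nonzero
  refine ⟨fun k => b.repr ⟨v, hvm⟩ k, ?_⟩
  have h1 := congrArg (fun w : LD (fun p : Projectivization K (Fin l → K) => p.rep) =>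
    (w : Fin l → MvPolynomial (Fin l) K)) (b.sum_repr ⟨v, hvm⟩)
  simp only [Submodule.coe_sum, Submodule.coe_smul, hb] at h1
  exact h1.symm

end Pool.Agent.H77.TF
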