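import Mathlib
import Pool.Agent.H77.TF.Def
import Pool.Agent.H77.TF.Def2
import Pool.Agent.H77.TF.Def3
import Pool.Agent.H77.TF.Stm
import Pool.Agent.H77.TF.Stm2
import Pool.Agent.H77.TF.Stm3

/-!
# Project TD: Terao's conjecture over finite fields for exponents `1, a, b` with `(q - a)(b + 1) ≤ q`

`q = Fintype.card K`, `S = K[X_0, X_1, X_2]`, `n = card ν`, `Q = ∏ i, lin (A i)`, `uncD A` is the number of the
missed planes of forms, that is, of the points of the projective plane on no plane of `A`.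
The modules of the projects TF, TG, TC may be used (as hypotheses or by importing them):
`pri`, `det`, `moo`, `gc3`, `bp3` (H77), `Pool.Agent.H6.TC.mr3`, `Pool.Agent.H27.TF.dd3 pri det`,
`Pool.Agent.H91.TF.kr3 gc3`, `Pool.Agent.H27.TF.sai pri det`.
-/

set_option autoImplicit false

open MvPolynomial Module

namespace Pool.Agent.H77.TF

/-- The homogeneous polynomials of degree `d` which vanish at all uncovered points. -/
def Hv {K : Type} [Field K] {ν : Type} (A : ν → Fin 3 → K) (d : ℕ) :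
    Submodule K (MvPolynomial (Fin 3) K) where
  carrier := {f | f.IsHomogeneous d ∧ ∀ x ∈ Pts A, eval x f = 0}
  zero_mem' := ⟨isHomogeneous_zero _ _ _, fun x _ => by simp⟩
  add_mem' := by
    rintro f g ⟨hf, hf'⟩ ⟨hg, hg'⟩
    exact ⟨hf.add hg, fun x hx => by rw [map_add, hf' x hx, hg' x hx, add_zero]⟩
  smul_mem' := by
    rintro c f ⟨hf, hf'⟩
    refine ⟨?_, fun x hx => by rw [smul_eval, hf' x hx, mul_zero]⟩
    rw [MvPolynomial.smul_eq_C_mul]
    simpa using (isHomogeneous_C (Fin 3) c).mul hf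

/-- The determinant of `θ_0, φ, ψ`. -/
noncomputable def E3 {K : Type} [Field K] [Fintype K] (φ ψ : Fin 3 → MvPolynomial (Fin 3) K) :
    MvPolynomial (Fin 3) K := (Matrix.of ![frob K 3 0, φ, ψ]).det

/-- DIM. The dimension of the space of forms of degree `d` in three variables. -/
def S_DIM : Prop :=
  ∀ (K : Type) [Field K] (d : ℕ), Module.Finite K (homogeneousSubmodule (Fin 3) K d) ∧
    finrank K (homogeneousSubmodule (Fin 3) K d) = (d + 2).choose 2

/-- PTU. Every missed plane `W` is `{a : a ⬝ x = 0}` for exactly `q - 1` vectors `x ≠ 0`, and these are in `Pts A`. -/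
def S_PTU : Prop :=
  ∀ (K : Type) [Field K] [Fintype K] (ν : Type) [Nonempty ν] (A : ν → Fin 3 → K),
    Nat.card (Pts A) = (Fintype.card K - 1) * uncD A

/-- EVD. Evaluation at representatives of the missed points (rank and nullity); (2) products of linear forms
separate the points if `uncD A ≤ d + 1`. -/
def S_EVD : Prop :=
  ∀ (K : Type) [Field K] [Fintype K] (ν : Type) [Nonempty ν] (A : ν → Fin 3 → K) (d : ℕ),
    (d + 2).choose 2 ≤ uncD A + finrank K (Hv A d) ∧
    (uncD A ≤ d + 1 → (d + 2).choose 2 = uncD A + finrank K (Hv A d))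

/-- ORT. Let `x_1, …, x_v` (`v = uncD A`) be representatives of the missed points. For forms `f`, `f'` of degrees
`d`, `d'` with `d + d' + n = 2 (q - 1)` the sum of `f f' Q` over `K ^ 3` is `0`
(`MvPolynomial.sum_eval_eq_zero`, total degree `2 (q - 1) < 3 (q - 1)`), the product `f f' Q` is `0` outside of
`Pts A` and takes the same value at `x` and `c x`, so `∑ Q(x_i) f(x_i) f'(x_i) = 0` (see `Pool.Agent.H27.TF.Pl3`).
As `Q(x_i) ≠ 0`, the spaces of the vectors `(Q(x_i) f(x_i))_i` and `(f'(x_i))_i` are orthogonal in `K ^ v`, so the sum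
of their dimensions is at most `v`; and these dimensions are `(d + 2).choose 2 - dim Hv A d`, …. -/
def S_ORT : Prop :=
  ∀ (K : Type) [Field K] [Fintype K] (ν : Type) [Fintype ν] [Nonempty ν] (A : ν → Fin 3 → K) (d d' : ℕ),
    d + d' + Fintype.card ν = 2 * (Fintype.card K - 1) →
    (d + 2).choose 2 + (d' + 2).choose 2 ≤ uncD A + finrank K (Hv A d) + finrank K (Hv A d')

/-- LFT. Proof: `h Q` vanishes on `K ^ 3`, MR3, DD3; `evl (A i) v = lin (A i) * g`, subtract `g θ_0` (see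
`Pool.Agent.H15.TF.CIB`). -/
def S_LFT : Prop :=
  ∀ (K : Type) [Field K] [Fintype K] (ν : Type) [Fintype ν] (A : ν → Fin 3 → K) (i : ν) (d m : ℕ)
    (h : MvPolynomial (Fin 3) K), Simple A → h ∈ Hv A d →
    d + Fintype.card ν = m + (Fintype.card K + 1) →
    ∃ ψ ∈ LD A, (∀ j, (ψ j).IsHomogeneous m) ∧ evl (A i) ψ = 0 ∧ D3 ψ = h * ∏ i, lin (A i)

/-- HDV. A divisor of a nonzero homogeneous polynomial is homogeneous (compare the lowest and the highest
homogeneous components of the factors). -/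
def S_HDV : Prop :=
  ∀ (K : Type) [Field K] (f g : MvPolynomial (Fin 3) K) (s : ℕ), (f * g).IsHomogeneous s → f * g ≠ 0 →
    ∃ m m' : ℕ, f.IsHomogeneous m ∧ g.IsHomogeneous m' ∧ m + m' = s

/-- PRM. Proof: `D3 (g φ - f ψ) = 0`, so `g φ - f ψ = α θ_0 + γ θ_1` (KR3); `E3 φ (g φ - f ψ) = 0` gives `γ D3 φ = 0`,
so `γ = 0`, and `evl (A i)` gives `α = 0`. So `g φ = f ψ`. Let `f = d f'`, `g = d g'`, `f'`, `g'` without common
factor; `f'` divides the components of `φ`, `φ = f' χ`, `D3 χ = d Q`. So `d` vanishes on `Pts A` (`D3 χ` vanishes on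
`K ^ 3` and `Q` does not vanish on `Pts A`); `d` is homogeneous (HDV), of degree `s` by minimality, so `f'` is a
constant. -/
def S_PRM : Prop :=
  ∀ (K : Type) [Field K] [Fintype K] (ν : Type) [Fintype ν] (A : ν → Fin 3 → K) (i : ν) (s : ℕ)
    (f g : MvPolynomial (Fin 3) K) (φ ψ : Fin 3 → MvPolynomial (Fin 3) K), Simple A →
    f.IsHomogeneous s → f ≠ 0 → (∀ d < s, Hv A d = ⊥) → evl (A i) φ = 0 → evl (A i) ψ = 0 →
    D3 φ = f * ∏ i, lin (A i) → D3 ψ = g * ∏ i, lin (A i) → E3 φ ψ = 0 → f ∣ g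

/-- CN3. Proof. `σ = 2 q + 1 - n`, `φ` from LFT for `f`, of degree `r = s + q - σ` (`q + 1 ≤ s + n` by MR3 for `f Q`). Let
`V` be the space of the `ψ ∈ LD A` with `evl (A i) ψ = 0`, homogeneous of degree `q`. (a) `dim V ≤ dim S_(σ-s) + dim S_s`:
`E3 φ ψ` is `Q` times a form of degree `1 + r + q - n = s` (DET, PRI), and if it is `0` then (PRM) `D3 ψ = g Q`, `g = h f`,
`h` of degree `σ - s`, `D3 (ψ - h φ) = 0`, KR3 and `E3 φ (ψ - h φ) = 0` give `ψ = h φ`. (b) `dim V ≥ dim Hv A σ + 1`: by LFT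
`ψ ↦ D3 ψ / Q` maps `V` onto `Hv A σ`, and `θ_1 - (lin (A i)) ^ (q - 1) θ_0 ≠ 0` is in the kernel. -/
def S_CN3 : Prop :=
  ∀ (K : Type) [Field K] [Fintype K] (ν : Type) [Fintype ν] (A : ν → Fin 3 → K) (i : ν) (s σ : ℕ)
    (f : MvPolynomial (Fin 3) K), Simple A → σ + Fintype.card ν = 2 * Fintype.card K + 1 → s ≤ σ →
    f ∈ Hv A s → f ≠ 0 → (∀ d < s, Hv A d = ⊥) →
    finrank K (Hv A σ) + 1 ≤ (σ - s + 2).choose 2 + (s + 2).choose 2

/-- NUA. Proof (from EVD, ORT, CN3): suppose `Hv A u = ⊥`, let `s > u` be the smallest `s` with `Hv A s ≠ ⊥` (it exists by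
EVD). If `s < v`: CN3 and EVD for `d = σ = u + v` give `s (σ - s) ≤ u v`, that is `(s - u) (s - v) ≥ 0`, contradiction. If
`s ≥ v`: for `v ≥ 3` ORT with `d = u`, `d' = v - 3` gives `(u + 2).choose 2 + (v - 1).choose 2 ≤ u v`, for `v ≤ 2` EVD gives
`(u + 2).choose 2 ≤ u v`; contradiction (`(v - u) ^ 2 - 3 (v - u) + 4 > 0`). -/
def S_NUA : Prop :=
  ∀ (K : Type) [Field K] [Fintype K] (ν : Type) [Fintype ν] [Nonempty ν] (A : ν → Fin 3 → K) (u v : ℕ),
    Simple A → 1 ≤ u → u ≤ v → v ≤ Fintype.card K → u + v + Fintype.card ν = 2 * Fintype.card K + 1 →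
    uncD A = u * v → (∀ d < u, Hv A d = ⊥) → Hv A u ≠ ⊥

/-- NUB. Proof. Let `f ∈ Hv A u`, `f ≠ 0`. (1) `dim Hv A v ≥ (v - u + 2).choose 2 + 1`: for `u ≥ 3` ORT with `d = v`,
`d' = u - 3` (`Hv A (u - 3) = ⊥`), for `u ≤ 2` EVD. So there is `g ∈ Hv A v`, `g ∉ f S_(v-u)` (dimension, DIM), hence
`f` does not divide `g` (components). (2) LFT: `φ`, `ψ` of degrees `q - v`, `q - u` with `D3 φ = f Q`, `D3 ψ = g Q`;
`E3 φ ψ = c Q` (DET, PRI), `c` homogeneous of degree `1 + (q - v) + (q - u) - n = 0`, and `c ≠ 0` by PRM. (3) SAI for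
`θ_0, ψ, φ`. -/
def S_NUB : Prop :=
  ∀ (K : Type) [Field K] [Fintype K] (ν : Type) [Fintype ν] [Nonempty ν] (A : ν → Fin 3 → K) (u v : ℕ),
    Simple A → 1 ≤ u → u ≤ v → v ≤ Fintype.card K → u + v + Fintype.card ν = 2 * Fintype.card K + 1 →
    uncD A = u * v → (∀ d < u, Hv A d = ⊥) → Hv A u ≠ ⊥ →
    HasExp A ![1, Fintype.card K - u, Fintype.card K - v]

/-- UVQ. Proof. A common factor of `f` and `g` divides all elements of `van A`, for example the minors of `θ_0, θ_1` (they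
vanish on `K ^ 3`), so it is a unit by GC3. `f ≠ 0`, otherwise `g` is a unit, but it vanishes at a point; `g ≠ 0`.
`f`, `g` have a zero, so `u, v ≥ 1`. MR3 for `f Q` and `g Q`: `q + 1 ≤ u + n`, `q + 1 ≤ v + n`. -/
def S_UVQ : Prop :=
  ∀ (K : Type) [Field K] [Fintype K] (ν : Type) [Fintype ν] [Nonempty ν] (A : ν → Fin 3 → K) (u v : ℕ)
    (f g : MvPolynomial (Fin 3) K), Simple A → (Pts A).Nonempty → f.IsHomogeneous u → g.IsHomogeneous v →
    u + v + Fintype.card ν = 2 * Fintype.card K + 1 → van A = Ideal.span {f, g} →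
    f ≠ 0 ∧ g ≠ 0 ∧ 1 ≤ u ∧ 1 ≤ v ∧ u ≤ Fintype.card K ∧ v ≤ Fintype.card K ∧
      ∀ p, p ∣ f → p ∣ g → IsUnit p

/-- CRD. Proof. For large `d`, `Hv A d` is the set of the elements of degree `d` of `van A`, that is
`f S_(d-u) + g S_(d-v)` (components), and the intersection of the two spaces is `f g S_(d-u-v)`. So by DIM, EVD (2):
`uncD A = C(d+2,2) - C(d-u+2,2) - C(d-v+2,2) + C(d-u-v+2,2) = u v`. -/
def S_CRD : Prop :=
  ∀ (K : Type) [Field K] [Fintype K] (ν : Type) [Fintype ν] [Nonempty ν] (A : ν → Fin 3 → K) (u v : ℕ)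
    (f g : MvPolynomial (Fin 3) K), (Pts A).Nonempty → f.IsHomogeneous u → g.IsHomogeneous v →
    van A = Ideal.span {f, g} → f ≠ 0 → g ≠ 0 → (∀ p, p ∣ f → p ∣ g → IsUnit p) → uncD A = u * v

/-- SZB. Proof. A nonzero form `h` of degree `d ≤ u - 1` has at most `d q ^ 2` zeros in `K ^ 3`
(`MvPolynomial.schwartz_zippel_totalDegree`), and `d ≥ 1` since it has a zero; its zeros are the points of `Pts A`,
`(q - 1) u v` many (PTU), and `0`. So `(q - 1) u v + 1 ≤ (u - 1) q ^ 2`, but `u v ≥ u (q + 1) - q` gives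
`(q - 1) u v + 1 ≥ (u - 1) q ^ 2 + (q + 1 - u)`. -/
def S_SZB : Prop :=
  ∀ (K : Type) [Field K] [Fintype K] (ν : Type) [Nonempty ν] (A : ν → Fin 3 → K) (u v : ℕ),
    1 ≤ u → u ≤ v → v ≤ Fintype.card K → u * (Fintype.card K - v + 1) ≤ Fintype.card K →
    uncD A = u * v → ∀ d < u, Hv A d = ⊥

/-- UEX. The degrees of a homogeneous basis are unique. Proof: for every `k` the numbers of `j` with `e j ≤ k` agree:
the `b' j` with `e' j ≤ k` are linearly independent and in the span of the `b j` with `e j ≤ k` (coefficients of degree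
`e' j - e j`). -/
def S_UEX : Prop :=
  ∀ (K : Type) [Field K] (l : ℕ) (ν : Type) (A : ν → Fin l → K) (e e' : Fin l → ℕ), HasExp A e →
    HasExp A e' → ∃ τ : Equiv.Perm (Fin l), e' = e ∘ τ

end Pool.Agent.H77.TF
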